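import Pool.Agent.H65.LS.BRa

/-!
Local smoothing, module BROAD: the broad part
-/

set_option autoImplicit false

namespace Pool.Agent.H65.LS

open Pool.Agent.H83.LS MeasureTheory Set
open scoped ENNReal NNReal

/-- centre of a cube in the plane -/
def ctr (r : ℝ) (m : ℤ × ℤ) : ℝ × ℝ := (r * m.1, r * m.2)

/-- covering of the plane by balls -/
theorem cover_plane {r : ℝ} (hr : 0 < r) (f : ℝ × ℝ → ℝ≥0∞) :
    ∫⁻ y, f y ≤ ∑' m : ℤ × ℤ, ∫⁻ y in Metric.closedBall (ctr r m) r, f y := by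
  have h : (⋃ m : ℤ × ℤ, Metric.closedBall (ctr r m) r) = univ := by
    rw [eq_univ_iff_forall]
    intro y
    rw [mem_iUnion]
    refine ⟨(⌊y.1 / r⌋, ⌊y.2 / r⌋), ?_⟩
    have key : ∀ x : ℝ, |x - r * ⌊x / r⌋| ≤ r := by
      intro x
      have h1 : x - r * ⌊x / r⌋ = r * (x / r - ⌊x / r⌋) := by field_simp
      rw [h1, abs_mul, abs_of_pos hr]
      have h2 := Int.floor_le (x / r)
      have h3 := Int.lt_floor_add_one (x / r)
      have h4 : |x / r - ⌊x / r⌋| ≤ 1 := by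
        rw [abs_le]
        constructor <;> linarith
      nlinarith
    rw [Metric.mem_closedBall, Prod.dist_eq]
    exact max_le (by rw [Real.dist_eq]; exact key _) (by rw [Real.dist_eq]; exact key _)
  calc ∫⁻ y, f y = ∫⁻ y in (⋃ m : ℤ × ℤ, Metric.closedBall (ctr r m) r), f y := by rw [h, setLIntegral_univ]
    _ ≤ _ := lintegral_iUnion_le _ _

/-- covering of the time interval -/
theorem cover_time {r S : ℝ} (hr : 0 < r) (f : ℝ → ℝ≥0∞) :
    ∫⁻ t in Icc 0 S, f t ≤ ∑ k : Fin (⌊S / r⌋₊ + 1), ∫⁻ t in Icc (r * (k : ℕ) - r) (r * (k : ℕ) + r), f t := by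
  have h : Icc 0 S ⊆ ⋃ k : Fin (⌊S / r⌋₊ + 1), Icc (r * (k : ℕ) - r) (r * (k : ℕ) + r) := by
    intro t ht
    rw [mem_iUnion]
    have h1 : ⌊t / r⌋₊ < ⌊S / r⌋₊ + 1 := by
      have : ⌊t / r⌋₊ ≤ ⌊S / r⌋₊ := Nat.floor_le_floor (div_le_div_of_nonneg_right ht.2 hr.le)
      omega
    refine ⟨⟨⌊t / r⌋₊, h1⟩, ?_⟩
    have h2 := Nat.floor_le (div_nonneg ht.1 hr.le)
    have h3 := Nat.lt_floor_add_one (t / r)
    have h4 : t = r * (t / r) := by field_simp
    have h5 : r * (⌊t / r⌋₊ : ℝ) ≤ t := by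
      nth_rewrite 2 [h4]
      exact mul_le_mul_of_nonneg_left h2 hr.le
    have h6 : t ≤ r * ((⌊t / r⌋₊ : ℝ) + 1) := by
      nth_rewrite 1 [h4]
      exact mul_le_mul_of_nonneg_left h3.le hr.le
    rw [mem_Icc]
    constructor <;> linarith
  refine le_trans (lintegral_mono_set h) ?_
  refine le_trans (lintegral_iUnion_le _ _) ?_
  rw [tsum_fintype]

/-- few intervals contain a given time -/
theorem time_overlap {r S : ℝ} (hr : 0 < r) (hrS : r ≤ S) (t : ℝ) :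
    ∑ k : Fin (⌊S / r⌋₊ + 1), (Icc (r * (k : ℕ) - r) (r * (k : ℕ) + r)).indicator (fun _ => (1 : ℝ≥0∞)) t ≤
      (Icc (-(4 * S)) (4 * S)).indicator (fun _ => 3) t := by
  classical
  set F : Finset (Fin (⌊S / r⌋₊ + 1)) := Finset.univ.filter fun k => t ∈ Icc (r * (k : ℕ) - r) (r * (k : ℕ) + r)
    with hF
  have h1 : ∑ k : Fin (⌊S / r⌋₊ + 1), (Icc (r * (k : ℕ) - r) (r * (k : ℕ) + r)).indicator
      (fun _ => (1 : ℝ≥0∞)) t = F.card := by
    simp only [indicator_apply]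
    rw [Finset.sum_boole]
  rw [h1]
  by_cases ht : t ∈ Icc (-(4 * S)) (4 * S)
  · rw [indicator_of_mem ht]
    have h2 : F.card ≤ 3 := by
      have h3 : (F.image (fun k : Fin (⌊S / r⌋₊ + 1) => (k : ℕ))).card ≤ 3 := by
        have h4 : ∀ i ∈ F.image (fun k : Fin (⌊S / r⌋₊ + 1) => (k : ℕ)), |t / r - (((i : ℤ) - (0 : ℕ) : ℤ) : ℝ)| ≤ 1 := by
          intro i hi
          rw [Finset.mem_image] at hi
          obtain ⟨k, hk, rfl⟩ := hi
          rw [hF, Finset.mem_filter] at hk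
          have h5 := hk.2.1
          have h6 := hk.2.2
          have h7 : t / r - ((((k : ℕ) : ℤ) - (0 : ℕ) : ℤ) : ℝ) = (t - r * (k : ℕ)) / r := by
            push_cast
            field_simp
            ring
          rw [h7, abs_div, abs_of_pos hr, div_le_one hr, abs_le]
          constructor <;> linarith
        exact three_planks' _ _ h4
      rwa [Finset.card_image_of_injective _ Fin.val_injective] at h3
    exact_mod_cast h2
  · rw [indicator_of_notMem ht]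
    have h2 : F = ∅ := by
      rw [Finset.eq_empty_iff_forall_notMem]
      intro k hk
      rw [hF, Finset.mem_filter] at hk
      apply ht
      have h3 : ((k : ℕ) : ℝ) ≤ S / r := by
        have h4 : (k : ℕ) ≤ ⌊S / r⌋₊ := Nat.lt_succ_iff.1 k.2
        exact le_trans (by exact_mod_cast h4) (Nat.floor_le (div_nonneg (by linarith) hr.le))
      have h5 : r * ((k : ℕ) : ℝ) ≤ S := by
        rw [le_div_iff₀ hr] at h3
        linarith
      have h6 : 0 ≤ r * ((k : ℕ) : ℝ) := by positivity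
      have h7 := hk.2.1
      have h8 := hk.2.2
      rw [mem_Icc]
      constructor <;> linarith
    rw [h2]
    simp

/-- sum of the energies -/
theorem energy_sum (h_LEC : T_LEC) : ∃ C : ℝ≥0, ∀ a ∈ Icc (0 : ℝ) 1, ∀ (r S : ℝ) (Cw : ℝ≥0)
    (w : (ℝ × ℝ) × ℝ → ℝ≥0∞) (A : ℝ≥0∞) (b : ℝ × ℝ → ℂ), 1 ≤ r → r ≤ S → Measurable w →
    (∀ z z' : (ℝ × ℝ) × ℝ, w z' ≤
      Cw * ENNReal.ofReal ((1 + (‖z'.1 - z.1‖ + |z'.2 - z.2|) / r) ^ 2) * w z) →
    TS QQ b →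
    ∫⁻ t in Icc (-(4 * S)) (4 * S), ∫⁻ y, w (y, t) * ‖U a t b y‖ₑ ^ 2 ≤ A * ENNReal.ofReal r * l2 b →
    ∑ k : Fin (⌊S / r⌋₊ + 1), ∑' m : ℤ × ℤ, w (ctr r m, r * (k : ℕ)) *
      En r (ctr r m) (U a (r * (k : ℕ)) b) ≤ C * Cw * (A * l2 b) := by
  obtain ⟨C3, hC3⟩ := h_LEC
  obtain ⟨L, hL⟩ := lattice_plane
  refine ⟨C3 * (6 * L), ?_⟩
  intro a ha r S Cw w A b hr hrS hw hsv hb hA
  have hr0 : 0 < r := by linarith
  have h2r : ENNReal.ofReal (2 * r) ≠ 0 := by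
    rw [Ne, ENNReal.ofReal_eq_zero, not_le]
    positivity
  have h2r' : ENNReal.ofReal (2 * r) ≠ ⊤ := ENNReal.ofReal_ne_top
  have hbI : Integrable b := hb.1.integrable
  have hUm : Measurable fun p : (ℝ × ℝ) × ℝ => ‖U a p.2 b p.1‖ₑ := measurable_U a hbI
  have hUy : ∀ t, Measurable fun y : ℝ × ℝ => ‖U a t b y‖ₑ := fun t =>
    (continuous_U_y a t hbI).measurable.enorm
  have hom : ∀ m : ℤ × ℤ, Measurable fun y : ℝ × ℝ => ENNReal.ofReal (om r (y - ctr r m)) := fun m =>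
    ((measurable_om r).comp (measurable_id.sub_const _)).ennreal_ofReal
  -- one cube
  have hone : ∀ (k : Fin (⌊S / r⌋₊ + 1)) (m : ℤ × ℤ), ENNReal.ofReal (2 * r) *
      (w (ctr r m, r * (k : ℕ)) * En r (ctr r m) (U a (r * (k : ℕ)) b)) ≤
      C3 * ∫⁻ t in Icc (r * (k : ℕ) - r) (r * (k : ℕ) + r), ∫⁻ y, w (ctr r m, r * (k : ℕ)) *
        (ENNReal.ofReal (om r (y - ctr r m)) * ‖U a t b y‖ₑ ^ 2) := by
    intro k m
    have h1 : ∀ t ∈ Icc (r * ((k : ℕ) : ℝ) - r) (r * ((k : ℕ) : ℝ) + r),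
        w (ctr r m, r * (k : ℕ)) * En r (ctr r m) (U a (r * (k : ℕ)) b) ≤
        C3 * ∫⁻ y, w (ctr r m, r * (k : ℕ)) * (ENNReal.ofReal (om r (y - ctr r m)) * ‖U a t b y‖ₑ ^ 2) := by
      intro t ht
      have h2 := hC3 a ha t (r * (k : ℕ) - t) r (ctr r m) b hr (by
        rw [abs_le]
        constructor <;> linarith [ht.1, ht.2]) hb
      rw [add_sub_cancel] at h2
      have hmm : Measurable fun y : ℝ × ℝ => ENNReal.ofReal (om r (y - ctr r m)) * ‖U a t b y‖ₑ ^ 2 :=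
        (hom m).mul ((hUy t).pow_const 2)
      rw [lintegral_const_mul _ hmm]
      calc w (ctr r m, r * (k : ℕ)) * En r (ctr r m) (U a (r * (k : ℕ)) b)
          ≤ w (ctr r m, r * (k : ℕ)) * (C3 * En r (ctr r m) (U a t b)) := by gcongr
        _ = _ := by
            unfold En
            ring
    have hvol : ∫⁻ t in Icc (r * ((k : ℕ) : ℝ) - r) (r * ((k : ℕ) : ℝ) + r),
        w (ctr r m, r * (k : ℕ)) * En r (ctr r m) (U a (r * (k : ℕ)) b) =
        ENNReal.ofReal (2 * r) * (w (ctr r m, r * (k : ℕ)) * En r (ctr r m) (U a (r * (k : ℕ)) b)) := by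
      rw [setLIntegral_const, Real.volume_Icc, mul_comm]
      congr 2
      ring
    rw [← hvol]
    have hm : Measurable fun t : ℝ => ∫⁻ y, w (ctr r m, r * (k : ℕ)) *
        (ENNReal.ofReal (om r (y - ctr r m)) * ‖U a t b y‖ₑ ^ 2) := by
      have h3 : Measurable fun p : (ℝ × ℝ) × ℝ => w (ctr r m, r * (k : ℕ)) *
          (ENNReal.ofReal (om r (p.1 - ctr r m)) * ‖U a p.2 b p.1‖ₑ ^ 2) :=
        (((hom m).comp measurable_fst).mul (hUm.pow_const 2)).const_mul _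
      exact h3.lintegral_prod_left'
    rw [← lintegral_const_mul _ hm]
    exact setLIntegral_mono (hm.const_mul _) h1
  -- pointwise sum over the lattice
  have hpt : ∀ (k : Fin (⌊S / r⌋₊ + 1)) (t : ℝ), t ∈ Icc (r * ((k : ℕ) : ℝ) - r) (r * ((k : ℕ) : ℝ) + r) →
      ∀ y : ℝ × ℝ, ∑' m : ℤ × ℤ, w (ctr r m, r * (k : ℕ)) *
        (ENNReal.ofReal (om r (y - ctr r m)) * ‖U a t b y‖ₑ ^ 2) ≤
      4 * Cw * L * (w (y, t) * ‖U a t b y‖ₑ ^ 2) := by
    intro k t ht y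
    have h1 : ∀ m : ℤ × ℤ, w (ctr r m, r * (k : ℕ)) *
        (ENNReal.ofReal (om r (y - ctr r m)) * ‖U a t b y‖ₑ ^ 2) ≤
        ENNReal.ofReal ((((1 + |y.1 - r * m.1| / r) * (1 + |y.2 - r * m.2| / r)) ^ 2)⁻¹) *
          (4 * Cw * (w (y, t) * ‖U a t b y‖ₑ ^ 2)) := by
      intro m
      have h2 := hsv (y, t) (ctr r m, r * (k : ℕ))
      simp only at h2
      have h3 : (1 + (‖ctr r m - y‖ + |r * ((k : ℕ) : ℝ) - t|) / r) ^ 2 * om r (y - ctr r m) ≤
          4 * (((1 + |y.1 - r * m.1| / r) * (1 + |y.2 - r * m.2| / r)) ^ 2)⁻¹ := by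
        set u := |y.1 - r * m.1| / r with hu
        set v := |y.2 - r * m.2| / r with hv
        have hu0 : 0 ≤ u := by positivity
        have hv0 : 0 ≤ v := by positivity
        have h4 : ‖ctr r m - y‖ / r ≤ u + v := by
          have h5 : ‖ctr r m - y‖ ≤ |y.1 - r * m.1| + |y.2 - r * m.2| := by
            rw [Prod.norm_def]
            simp only [ctr, Prod.fst_sub, Prod.snd_sub, Real.norm_eq_abs]
            rw [abs_sub_comm (r * (m.1 : ℝ)), abs_sub_comm (r * (m.2 : ℝ))]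
            exact max_le (le_add_of_nonneg_right (abs_nonneg _)) (le_add_of_nonneg_left (abs_nonneg _))
          rw [hu, hv, ← add_div]
          exact div_le_div_of_nonneg_right h5 hr0.le
        have h6 : |r * ((k : ℕ) : ℝ) - t| / r ≤ 1 := by
          rw [div_le_one hr0, abs_le]
          constructor <;> linarith [ht.1, ht.2]
        have h7 : 1 + (‖ctr r m - y‖ + |r * ((k : ℕ) : ℝ) - t|) / r ≤ 2 * ((1 + u) * (1 + v)) := by
          rw [add_div]
          nlinarith [mul_nonneg hu0 hv0]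
        have h8 : 0 ≤ 1 + (‖ctr r m - y‖ + |r * ((k : ℕ) : ℝ) - t|) / r := by positivity
        have h9 : om r (y - ctr r m) = (((1 + u) * (1 + v)) ^ 8)⁻¹ := by
          unfold om
          simp only [ctr, Prod.fst_sub, Prod.snd_sub]
          rw [hu, hv]
        set W := (1 + u) * (1 + v) with hW
        have hW1 : 1 ≤ W := by nlinarith [mul_nonneg hu0 hv0]
        have hW0 : 0 < W := by linarith
        rw [h9]
        calc (1 + (‖ctr r m - y‖ + |r * ((k : ℕ) : ℝ) - t|) / r) ^ 2 * (W ^ 8)⁻¹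
            ≤ (2 * W) ^ 2 * (W ^ 8)⁻¹ := by
              refine mul_le_mul_of_nonneg_right (pow_le_pow_left₀ h8 h7 2) (by positivity)
          _ = 4 * (W ^ 6)⁻¹ := by
              field_simp
              ring
          _ ≤ 4 * (W ^ 2)⁻¹ := by
              refine mul_le_mul_of_nonneg_left ?_ (by norm_num)
              exact inv_anti₀ (by positivity) (pow_le_pow_right₀ hW1 (by norm_num))
      calc w (ctr r m, r * (k : ℕ)) * (ENNReal.ofReal (om r (y - ctr r m)) * ‖U a t b y‖ₑ ^ 2)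
          ≤ (Cw * ENNReal.ofReal ((1 + (‖ctr r m - y‖ + |r * ((k : ℕ) : ℝ) - t|) / r) ^ 2) * w (y, t)) *
            (ENNReal.ofReal (om r (y - ctr r m)) * ‖U a t b y‖ₑ ^ 2) := by gcongr
        _ = (ENNReal.ofReal ((1 + (‖ctr r m - y‖ + |r * ((k : ℕ) : ℝ) - t|) / r) ^ 2) *
              ENNReal.ofReal (om r (y - ctr r m))) * (Cw * (w (y, t) * ‖U a t b y‖ₑ ^ 2)) := by ring
        _ ≤ ENNReal.ofReal (4 * (((1 + |y.1 - r * m.1| / r) * (1 + |y.2 - r * m.2| / r)) ^ 2)⁻¹) *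
              (Cw * (w (y, t) * ‖U a t b y‖ₑ ^ 2)) := by
            rw [← ENNReal.ofReal_mul (by positivity)]
            exact mul_le_mul_left (ENNReal.ofReal_le_ofReal h3) _
        _ = _ := by
            rw [ENNReal.ofReal_mul (by norm_num)]
            have h10 : ENNReal.ofReal 4 = 4 := by norm_num
            rw [h10]
            ring
    calc ∑' m : ℤ × ℤ, w (ctr r m, r * (k : ℕ)) *
          (ENNReal.ofReal (om r (y - ctr r m)) * ‖U a t b y‖ₑ ^ 2)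
        ≤ ∑' m : ℤ × ℤ, ENNReal.ofReal ((((1 + |y.1 - r * m.1| / r) * (1 + |y.2 - r * m.2| / r)) ^ 2)⁻¹) *
          (4 * Cw * (w (y, t) * ‖U a t b y‖ₑ ^ 2)) := ENNReal.tsum_le_tsum h1
      _ = (∑' m : ℤ × ℤ, ENNReal.ofReal ((((1 + |y.1 - r * m.1| / r) * (1 + |y.2 - r * m.2| / r)) ^ 2)⁻¹)) *
          (4 * Cw * (w (y, t) * ‖U a t b y‖ₑ ^ 2)) := ENNReal.tsum_mul_right
      _ ≤ L * (4 * Cw * (w (y, t) * ‖U a t b y‖ₑ ^ 2)) := by
          gcongr
          exact hL r y hr0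
      _ = _ := by ring
  -- sum over the lattice for fixed k
  have hPsi : Measurable fun t : ℝ => ∫⁻ y, w (y, t) * ‖U a t b y‖ₑ ^ 2 := by
    have h3 : Measurable fun p : (ℝ × ℝ) × ℝ => w p * ‖U a p.2 b p.1‖ₑ ^ 2 := hw.mul (hUm.pow_const 2)
    exact h3.lintegral_prod_left'
  have hk : ∀ k : Fin (⌊S / r⌋₊ + 1), ENNReal.ofReal (2 * r) * ∑' m : ℤ × ℤ, w (ctr r m, r * (k : ℕ)) *
      En r (ctr r m) (U a (r * (k : ℕ)) b) ≤
      C3 * (4 * Cw * L) * ∫⁻ t, (Icc (r * ((k : ℕ) : ℝ) - r) (r * ((k : ℕ) : ℝ) + r)).indicator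
        (fun _ => (1 : ℝ≥0∞)) t * ∫⁻ y, w (y, t) * ‖U a t b y‖ₑ ^ 2 := by
    intro k
    have hmG : ∀ m : ℤ × ℤ, Measurable fun p : (ℝ × ℝ) × ℝ => w (ctr r m, r * (k : ℕ)) *
        (ENNReal.ofReal (om r (p.1 - ctr r m)) * ‖U a p.2 b p.1‖ₑ ^ 2) := fun m =>
      (((hom m).comp measurable_fst).mul (hUm.pow_const 2)).const_mul _
    rw [← ENNReal.tsum_mul_left]
    calc ∑' m : ℤ × ℤ, ENNReal.ofReal (2 * r) *
          (w (ctr r m, r * (k : ℕ)) * En r (ctr r m) (U a (r * (k : ℕ)) b))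
        ≤ ∑' m : ℤ × ℤ, C3 * ∫⁻ t in Icc (r * ((k : ℕ) : ℝ) - r) (r * ((k : ℕ) : ℝ) + r), ∫⁻ y,
            w (ctr r m, r * (k : ℕ)) * (ENNReal.ofReal (om r (y - ctr r m)) * ‖U a t b y‖ₑ ^ 2) :=
          ENNReal.tsum_le_tsum (hone k)
      _ = C3 * ∫⁻ t in Icc (r * ((k : ℕ) : ℝ) - r) (r * ((k : ℕ) : ℝ) + r), ∑' m : ℤ × ℤ, ∫⁻ y,
            w (ctr r m, r * (k : ℕ)) * (ENNReal.ofReal (om r (y - ctr r m)) * ‖U a t b y‖ₑ ^ 2) := by
          rw [ENNReal.tsum_mul_left, lintegral_tsum]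
          intro m
          exact ((hmG m).lintegral_prod_left').aemeasurable
      _ = C3 * ∫⁻ t in Icc (r * ((k : ℕ) : ℝ) - r) (r * ((k : ℕ) : ℝ) + r), ∫⁻ y, ∑' m : ℤ × ℤ,
            w (ctr r m, r * (k : ℕ)) * (ENNReal.ofReal (om r (y - ctr r m)) * ‖U a t b y‖ₑ ^ 2) := by
          congr 1
          refine lintegral_congr fun t => ?_
          rw [lintegral_tsum]
          intro m
          exact (((hom m).mul ((hUy t).pow_const 2)).const_mul _).aemeasurable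
      _ ≤ C3 * ∫⁻ t in Icc (r * ((k : ℕ) : ℝ) - r) (r * ((k : ℕ) : ℝ) + r),
            (4 * Cw * L) * ∫⁻ y, w (y, t) * ‖U a t b y‖ₑ ^ 2 := by
          refine mul_le_mul_right ?_ _
          refine setLIntegral_mono (hPsi.const_mul _) fun t ht => ?_
          rw [← lintegral_const_mul]
          · exact lintegral_mono fun y => hpt k t ht y
          · exact (hw.comp (by fun_prop : Measurable fun y : ℝ × ℝ => (y, t))).mul ((hUy t).pow_const 2)
      _ = _ := by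
          rw [lintegral_const_mul _ hPsi, ← lintegral_indicator measurableSet_Icc, ← mul_assoc]
          congr 1
          refine lintegral_congr fun t => ?_
          by_cases ht : t ∈ Icc (r * ((k : ℕ) : ℝ) - r) (r * ((k : ℕ) : ℝ) + r)
          · rw [indicator_of_mem ht, indicator_of_mem ht, one_mul]
          · rw [indicator_of_notMem ht, indicator_of_notMem ht, zero_mul]
  -- sum over k
  have hsum : ENNReal.ofReal (2 * r) * ∑ k : Fin (⌊S / r⌋₊ + 1), ∑' m : ℤ × ℤ, w (ctr r m, r * (k : ℕ)) *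
      En r (ctr r m) (U a (r * (k : ℕ)) b) ≤ C3 * (4 * Cw * L) * (3 * (A * ENNReal.ofReal r * l2 b)) := by
    rw [Finset.mul_sum]
    refine le_trans (Finset.sum_le_sum fun k _ => hk k) ?_
    rw [← Finset.mul_sum]
    gcongr
    rw [← lintegral_finsetSum]
    · calc ∫⁻ t, ∑ k : Fin (⌊S / r⌋₊ + 1), (Icc (r * ((k : ℕ) : ℝ) - r) (r * ((k : ℕ) : ℝ) + r)).indicator
            (fun _ => (1 : ℝ≥0∞)) t * ∫⁻ y, w (y, t) * ‖U a t b y‖ₑ ^ 2
          ≤ ∫⁻ t, (Icc (-(4 * S)) (4 * S)).indicator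
              (fun t => 3 * ∫⁻ y, w (y, t) * ‖U a t b y‖ₑ ^ 2) t := by
            refine lintegral_mono fun t => ?_
            rw [← Finset.sum_mul]
            refine le_trans (mul_le_mul_left (time_overlap hr0 hrS t) _) ?_
            by_cases ht : t ∈ Icc (-(4 * S)) (4 * S)
            · rw [indicator_of_mem ht, indicator_of_mem ht]
            · rw [indicator_of_notMem ht, indicator_of_notMem ht, zero_mul]
        _ = 3 * ∫⁻ t in Icc (-(4 * S)) (4 * S), ∫⁻ y, w (y, t) * ‖U a t b y‖ₑ ^ 2 := by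
            rw [lintegral_indicator measurableSet_Icc, lintegral_const_mul _ hPsi]
        _ ≤ _ := by gcongr
    · intro k _
      exact (measurable_const.indicator measurableSet_Icc).mul hPsi
  have hfin : ENNReal.ofReal (2 * r) * ∑ k : Fin (⌊S / r⌋₊ + 1), ∑' m : ℤ × ℤ, w (ctr r m, r * (k : ℕ)) *
      En r (ctr r m) (U a (r * (k : ℕ)) b) ≤
      ENNReal.ofReal (2 * r) * (((C3 * (6 * L) : ℝ≥0) : ℝ≥0∞) * Cw * (A * l2 b)) := by
    refine le_trans hsum (le_of_eq ?_)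
    rw [ENNReal.ofReal_mul (by norm_num)]
    have h2 : ENNReal.ofReal 2 = 2 := by norm_num
    rw [h2]
    push_cast
    ring
  exact (ENNReal.mul_le_mul_iff_right h2r h2r').1 hfin

/-- Hoelder inequality for three series -/
theorem tsum_holder {ι : Type} [Countable ι] (w : ι → ℝ≥0∞) (E : Fin 3 → ι → ℝ≥0∞) (p : ℝ) :
    ∑' x, w x * ∏ i, E i x ^ (p / 6) ≤ ∏ i : Fin 3, (∑' x, w x * E i x ^ (p / 2)) ^ (1 / 3 : ℝ) := by
  let _ : MeasurableSpace ι := ⊤
  have h := ENNReal.lintegral_prod_norm_pow_le (μ := (Measure.count : Measure ι)) (Finset.univ : Finset (Fin 3))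
    (f := fun i x => w x * E i x ^ (p / 2)) (fun i _ => (measurable_of_countable _).aemeasurable)
    (p := fun _ => (1 / 3 : ℝ)) (by simp) (fun i _ => by norm_num)
  simp only [lintegral_count] at h
  refine le_trans (le_of_eq ?_) h
  refine tsum_congr fun x => ?_
  have h1 : ∀ i, (w x * E i x ^ (p / 2)) ^ (1 / 3 : ℝ) = w x ^ (1 / 3 : ℝ) * E i x ^ (p / 6) := by
    intro i
    rw [ENNReal.mul_rpow_of_nonneg _ _ (by norm_num), ← ENNReal.rpow_mul]
    congr 2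
    ring
  simp_rw [h1]
  rw [Finset.prod_mul_distrib, Finset.prod_const, Finset.card_univ, Fintype.card_fin, ← ENNReal.rpow_natCast,
    ← ENNReal.rpow_mul]
  norm_num

/-- BROAD -/
theorem broad (h_TLK : T_TLK) (h_SUPB : T_SUPB) (h_LEC : T_LEC) : T_BROAD := by
  intro p K η Cw hp2 hp3 hK hη
  have hp0 : 0 < p := by linarith
  obtain ⟨C1, hC1⟩ := h_TLK K (3 * η / p) hK (by positivity)
  obtain ⟨C2, hC2⟩ := h_SUPB
  obtain ⟨C3, hC3⟩ := energy_sum h_LEC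
  have hθ0 : 0 ≤ p / 3 := by positivity
  have hθ1 : p / 3 ≤ 1 := by linarith
  have hq0 : 0 ≤ p / 2 - 1 := by linarith
  set D : ℝ≥0 := 9 * Cw * (8 : ℝ≥0) ^ (1 - p / 3) * C1 ^ (p / 3) with hD
  set D' : ℝ≥0 := C2 ^ (p / 2 - 1) * (2 : ℝ≥0) ^ (p / 2 - 1) * (C3 * Cw) with hD'
  refine ⟨D * D', ?_⟩
  intro a ha r S w A s b hr hrS hw hsv hsep hb hA
  have hr0 : 0 < r := by linarith
  have hS0 : 0 < S := by linarith
  have hbI : ∀ i, Integrable (b i) := fun i => (hb i).1.integrable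
  have hbQ : ∀ i, TS QQ (b i) := fun i => ⟨(hb i).1, fun ζ h0 => ((hb i).2 ζ h0).1⟩
  have hPm : Measurable fun q : (ℝ × ℝ) × ℝ => ∏ i, ‖U a q.2 (b i) q.1‖ₑ := measurable_prod_U a b hbI
  have hFm : Measurable fun q : (ℝ × ℝ) × ℝ => w q * (∏ i, ‖U a q.2 (b i) q.1‖ₑ) ^ (p / 3) :=
    hw.mul (hPm.pow_const _)
  set E : Fin 3 → (Fin (⌊S / r⌋₊ + 1) × (ℤ × ℤ)) → ℝ≥0∞ := fun i x =>
    En r (ctr r x.2) (U a (r * (x.1 : ℕ)) (b i)) with hE
  set wB : (Fin (⌊S / r⌋₊ + 1) × (ℤ × ℤ)) → ℝ≥0∞ := fun x => w (ctr r x.2, r * (x.1 : ℕ)) with hwB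
  -- step 1: covering
  have h1 : ∫⁻ t in Icc 0 S, ∫⁻ y, w (y, t) * (∏ i, ‖U a t (b i) y‖ₑ) ^ (p / 3) ≤
      ∑' x : Fin (⌊S / r⌋₊ + 1) × (ℤ × ℤ), ∫⁻ t in Icc (r * ((x.1 : ℕ) : ℝ) - r) (r * ((x.1 : ℕ) : ℝ) + r),
        ∫⁻ y in Metric.closedBall (ctr r x.2) r, w (y, t) * (∏ i, ‖U a t (b i) y‖ₑ) ^ (p / 3) := by
    refine le_trans (cover_time hr0 _) ?_
    rw [ENNReal.tsum_prod', tsum_fintype]
    refine Finset.sum_le_sum fun k _ => ?_
    calc ∫⁻ t in Icc (r * ((k : ℕ) : ℝ) - r) (r * ((k : ℕ) : ℝ) + r), ∫⁻ y,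
          w (y, t) * (∏ i, ‖U a t (b i) y‖ₑ) ^ (p / 3)
        ≤ ∫⁻ t in Icc (r * ((k : ℕ) : ℝ) - r) (r * ((k : ℕ) : ℝ) + r), ∑' m : ℤ × ℤ,
          ∫⁻ y in Metric.closedBall (ctr r m) r, w (y, t) * (∏ i, ‖U a t (b i) y‖ₑ) ^ (p / 3) :=
          lintegral_mono fun t => cover_plane hr0 _
      _ = ∑' m : ℤ × ℤ, ∫⁻ t in Icc (r * ((k : ℕ) : ℝ) - r) (r * ((k : ℕ) : ℝ) + r),
          ∫⁻ y in Metric.closedBall (ctr r m) r, w (y, t) * (∏ i, ‖U a t (b i) y‖ₑ) ^ (p / 3) := by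
          refine lintegral_tsum fun m => ?_
          exact (hFm.lintegral_prod_left' (μ := volume.restrict (Metric.closedBall (ctr r m) r))).aemeasurable
  -- step 2: one cube
  have h2 : ∀ x : Fin (⌊S / r⌋₊ + 1) × (ℤ × ℤ),
      ∫⁻ t in Icc (r * ((x.1 : ℕ) : ℝ) - r) (r * ((x.1 : ℕ) : ℝ) + r),
        ∫⁻ y in Metric.closedBall (ctr r x.2) r, w (y, t) * (∏ i, ‖U a t (b i) y‖ₑ) ^ (p / 3) ≤
      D * ENNReal.ofReal (r ^ (3 - p + η)) * (wB x * ∏ i, E i x ^ (p / 6)) := by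
    intro x
    have hwx : ∀ t ∈ Icc (r * ((x.1 : ℕ) : ℝ) - r) (r * ((x.1 : ℕ) : ℝ) + r), ∀ y ∈ Metric.closedBall (ctr r x.2) r,
        w (y, t) ≤ 9 * Cw * wB x := by
      intro t ht y hy
      have h3 := hsv (ctr r x.2, r * (x.1 : ℕ)) (y, t)
      simp only at h3
      refine le_trans h3 ?_
      have h4 : ENNReal.ofReal ((1 + (‖y - ctr r x.2‖ + |t - r * ((x.1 : ℕ) : ℝ)|) / r) ^ 2) ≤ 9 := by
        have h5 : ‖y - ctr r x.2‖ ≤ r := by
          rw [← dist_eq_norm]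
          exact hy
        have h6 : |t - r * ((x.1 : ℕ) : ℝ)| ≤ r := by
          rw [abs_le]
          constructor <;> linarith [ht.1, ht.2]
        have h7 : (‖y - ctr r x.2‖ + |t - r * ((x.1 : ℕ) : ℝ)|) / r ≤ 2 := by
          rw [div_le_iff₀ hr0]
          linarith
        calc ENNReal.ofReal ((1 + (‖y - ctr r x.2‖ + |t - r * ((x.1 : ℕ) : ℝ)|) / r) ^ 2)
            ≤ ENNReal.ofReal (3 ^ 2) := by
              refine ENNReal.ofReal_le_ofReal (pow_le_pow_left₀ (by positivity) (by linarith) 2)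
          _ = 9 := by norm_num
      calc Cw * ENNReal.ofReal ((1 + (‖y - ctr r x.2‖ + |t - r * ((x.1 : ℕ) : ℝ)|) / r) ^ 2) *
            w (ctr r x.2, r * (x.1 : ℕ)) ≤ Cw * 9 * wB x := by gcongr
        _ = 9 * Cw * wB x := by ring
    have hPm' : Measurable fun q : (ℝ × ℝ) × ℝ => (∏ i, ‖U a q.2 (b i) q.1‖ₑ) ^ (p / 3) := hPm.pow_const _
    have h3 : ∫⁻ t in Icc (r * ((x.1 : ℕ) : ℝ) - r) (r * ((x.1 : ℕ) : ℝ) + r),
        ∫⁻ y in Metric.closedBall (ctr r x.2) r, w (y, t) * (∏ i, ‖U a t (b i) y‖ₑ) ^ (p / 3) ≤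
        9 * Cw * wB x * ∫⁻ t in Icc (r * ((x.1 : ℕ) : ℝ) - r) (r * ((x.1 : ℕ) : ℝ) + r),
        ∫⁻ y in Metric.closedBall (ctr r x.2) r, (∏ i, ‖U a t (b i) y‖ₑ) ^ (p / 3) := by
      have hm1 : Measurable fun t : ℝ =>
          ∫⁻ y in Metric.closedBall (ctr r x.2) r, (∏ i, ‖U a t (b i) y‖ₑ) ^ (p / 3) :=
        hPm'.lintegral_prod_left'
      rw [← lintegral_const_mul _ hm1]
      refine setLIntegral_mono (hm1.const_mul _) fun t ht => ?_
      have hm2 : Measurable fun y : ℝ × ℝ => (∏ i, ‖U a t (b i) y‖ₑ) ^ (p / 3) :=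
        (measurable_prod_U_y a t b hbI).pow_const _
      rw [← lintegral_const_mul _ hm2]
      refine setLIntegral_mono (hm2.const_mul _) fun y hy => ?_
      exact mul_le_mul_left (hwx t ht y hy) _
    have h4 := box_rpow_le (fun q : (ℝ × ℝ) × ℝ => ∏ i, ‖U a q.2 (b i) q.1‖ₑ) hPm hθ0 hθ1 hr0
      (r * ((x.1 : ℕ) : ℝ)) (ctr r x.2)
    have h5 : tri a r (r * ((x.1 : ℕ) : ℝ)) (ctr r x.2) b ≤
        C1 * ENNReal.ofReal (r ^ (3 * η / p)) * ∏ i, E i x ^ (1 / 2 : ℝ) :=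
      hC1 a ha s r (r * ((x.1 : ℕ) : ℝ)) (ctr r x.2) b hsep hr hb
    have h6 : (tri a r (r * ((x.1 : ℕ) : ℝ)) (ctr r x.2) b) ^ (p / 3) ≤
        (C1 : ℝ≥0∞) ^ (p / 3) * ENNReal.ofReal (r ^ η) * ∏ i, E i x ^ (p / 6) := by
      refine le_trans (ENNReal.rpow_le_rpow h5 hθ0) (le_of_eq ?_)
      rw [ENNReal.mul_rpow_of_nonneg _ _ hθ0, ENNReal.mul_rpow_of_nonneg _ _ hθ0,
        ENNReal.ofReal_rpow_of_pos (by positivity), ← Real.rpow_mul hr0.le, ← ENNReal.prod_rpow_of_nonneg hθ0]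
      congr 1
      · congr 3
        field_simp
      · refine Finset.prod_congr rfl fun i _ => ?_
        rw [← ENNReal.rpow_mul]
        congr 1
        ring
    calc _ ≤ _ := h3
      _ ≤ 9 * Cw * wB x * (ENNReal.ofReal ((8 * r ^ 3) ^ (1 - p / 3)) *
            (tri a r (r * ((x.1 : ℕ) : ℝ)) (ctr r x.2) b) ^ (p / 3)) := mul_le_mul_right h4 _
      _ ≤ 9 * Cw * wB x * (ENNReal.ofReal ((8 * r ^ 3) ^ (1 - p / 3)) *
            ((C1 : ℝ≥0∞) ^ (p / 3) * ENNReal.ofReal (r ^ η) * ∏ i, E i x ^ (p / 6))) := by gcongr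
      _ = _ := by
          have h7 : ENNReal.ofReal ((8 * r ^ 3) ^ (1 - p / 3)) =
              (8 : ℝ≥0∞) ^ (1 - p / 3) * ENNReal.ofReal (r ^ (3 - p)) := by
            rw [Real.mul_rpow (by norm_num) (by positivity), ENNReal.ofReal_mul (by positivity),
              ← ENNReal.ofReal_rpow_of_pos (by norm_num), ← Real.rpow_natCast r 3, ← Real.rpow_mul hr0.le]
            congr 2
            · norm_num
            · congr 1
              push_cast
              ring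
          have h8 : ENNReal.ofReal (r ^ (3 - p + η)) = ENNReal.ofReal (r ^ (3 - p)) * ENNReal.ofReal (r ^ η) := by
            rw [Real.rpow_add hr0, ENNReal.ofReal_mul (by positivity)]
          rw [h7, h8, hD]
          rw [ENNReal.coe_mul, ENNReal.coe_mul, ENNReal.coe_mul, ENNReal.coe_rpow_of_nonneg _ hθ0,
            ENNReal.coe_rpow_of_nonneg _ (by linarith : 0 ≤ 1 - p / 3)]
          push_cast
          ring
  -- step 3: Hoelder
  have h3 : ∑' x, wB x * ∏ i, E i x ^ (p / 6) ≤ ∏ i : Fin 3, (∑' x, wB x * E i x ^ (p / 2)) ^ (1 / 3 : ℝ) :=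
    tsum_holder wB E p
  -- step 4
  have h4 : ∀ i, ∑' x, wB x * E i x ^ (p / 2) ≤
      (D' : ℝ≥0∞) * ENNReal.ofReal ((r * S) ^ (p / 2 - 1)) * A * (supn (Fi (b i)) ^ (p - 2) * l2 (b i)) := by
    intro i
    set M : ℝ≥0∞ := C2 * ENNReal.ofReal (2 * (r * S)) * (supn (Fi (b i))) ^ 2 with hM
    have hEM : ∀ x, E i x ≤ M := by
      intro x
      refine le_trans (hC2 a ha (r * ((x.1 : ℕ) : ℝ)) r (ctr r x.2) (b i) hr (hbQ i)) ?_
      have h5 : ((x.1 : ℕ) : ℝ) ≤ S / r := by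
        have h6 : (x.1 : ℕ) ≤ ⌊S / r⌋₊ := Nat.lt_succ_iff.1 x.1.2
        exact le_trans (by exact_mod_cast h6) (Nat.floor_le (by positivity))
      have h6 : |r * ((x.1 : ℕ) : ℝ)| ≤ S := by
        rw [abs_of_nonneg (by positivity)]
        rw [le_div_iff₀ hr0] at h5
        linarith
      have h7 : ENNReal.ofReal (r * (r + |r * ((x.1 : ℕ) : ℝ)|)) ≤ ENNReal.ofReal (2 * (r * S)) := by
        refine ENNReal.ofReal_le_ofReal ?_
        nlinarith
      rw [hM]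
      exact mul_le_mul_left (mul_le_mul_right h7 _) _
    have h5 : ∑' x, wB x * E i x ^ (p / 2) ≤ M ^ (p / 2 - 1) * ∑' x, wB x * E i x := by
      rw [← ENNReal.tsum_mul_left]
      refine ENNReal.tsum_le_tsum fun x => ?_
      have h6 : E i x ^ (p / 2) = E i x ^ (p / 2 - 1) * E i x := by
        have h7 := ENNReal.rpow_add_of_nonneg (x := E i x) (p / 2 - 1) 1 hq0 zero_le_one
        rw [sub_add_cancel, ENNReal.rpow_one] at h7
        exact h7
      rw [h6]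
      calc wB x * (E i x ^ (p / 2 - 1) * E i x) ≤ wB x * (M ^ (p / 2 - 1) * E i x) := by
            gcongr
            exact hEM x
        _ = _ := by ring
    have h6 : ∑' x, wB x * E i x ≤ C3 * Cw * (A * l2 (b i)) := by
      rw [ENNReal.tsum_prod', tsum_fintype]
      exact hC3 a ha r S Cw w A (b i) hr hrS hw hsv (hbQ i) (hA i)
    refine le_trans h5 (le_trans (mul_le_mul_right h6 _) (le_of_eq ?_))
    have h7 : M ^ (p / 2 - 1) = (C2 : ℝ≥0∞) ^ (p / 2 - 1) * ((2 : ℝ≥0∞) ^ (p / 2 - 1) *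
        ENNReal.ofReal ((r * S) ^ (p / 2 - 1))) * supn (Fi (b i)) ^ (p - 2) := by
      rw [hM, ENNReal.mul_rpow_of_nonneg _ _ hq0, ENNReal.mul_rpow_of_nonneg _ _ hq0,
        ENNReal.ofReal_mul (by norm_num), ENNReal.mul_rpow_of_nonneg _ _ hq0,
        ENNReal.ofReal_rpow_of_pos (by positivity : 0 < r * S), ← ENNReal.rpow_natCast, ← ENNReal.rpow_mul]
      have h8 : ENNReal.ofReal 2 = 2 := by norm_num
      rw [h8]
      congr 2
      push_cast
      ring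
    rw [h7, hD', ENNReal.coe_mul, ENNReal.coe_mul, ENNReal.coe_mul, ENNReal.coe_rpow_of_nonneg _ hq0,
      ENNReal.coe_rpow_of_nonneg _ hq0]
    push_cast
    ring
  calc _ ≤ _ := h1
    _ ≤ ∑' x, D * ENNReal.ofReal (r ^ (3 - p + η)) * (wB x * ∏ i, E i x ^ (p / 6)) := ENNReal.tsum_le_tsum h2
    _ = D * ENNReal.ofReal (r ^ (3 - p + η)) * ∑' x, (wB x * ∏ i, E i x ^ (p / 6)) := ENNReal.tsum_mul_left
    _ ≤ D * ENNReal.ofReal (r ^ (3 - p + η)) *
        ∏ i : Fin 3, ((D' : ℝ≥0∞) * ENNReal.ofReal ((r * S) ^ (p / 2 - 1)) * A *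
          (supn (Fi (b i)) ^ (p - 2) * l2 (b i))) ^ (1 / 3 : ℝ) := by
        refine mul_le_mul_right (le_trans h3 ?_) _
        exact Finset.prod_le_prod' fun i _ => ENNReal.rpow_le_rpow (h4 i) (by norm_num)
    _ = _ := by
        have h5 : ∀ i : Fin 3, ((D' : ℝ≥0∞) * ENNReal.ofReal ((r * S) ^ (p / 2 - 1)) * A *
            (supn (Fi (b i)) ^ (p - 2) * l2 (b i))) ^ (1 / 3 : ℝ) =
            ((D' : ℝ≥0∞) * ENNReal.ofReal ((r * S) ^ (p / 2 - 1)) * A) ^ (1 / 3 : ℝ) *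
            (supn (Fi (b i)) ^ (p - 2) * l2 (b i)) ^ (1 / 3 : ℝ) := fun i =>
          ENNReal.mul_rpow_of_nonneg _ _ (by norm_num)
        simp_rw [h5]
        rw [Finset.prod_mul_distrib, Finset.prod_const, Finset.card_univ, Fintype.card_fin,
          ← ENNReal.rpow_natCast, ← ENNReal.rpow_mul, ENNReal.prod_rpow_of_nonneg (by norm_num : (0 : ℝ) ≤ 1 / 3),
          ENNReal.ofReal_mul (by positivity), show ((D * D' : ℝ≥0) : ℝ≥0∞) = (D : ℝ≥0∞) * D' from ENNReal.coe_mul D D']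
        have h6 : (1 / 3 : ℝ) * ((3 : ℕ) : ℝ) = 1 := by norm_num
        rw [h6, ENNReal.rpow_one]
        ring

end Pool.Agent.H65.LS
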