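import Pool.Agent.H65.LS.Tool2

/-!
Local smoothing, module BROAD, part a: Hoelder inequality on boxes, lattice sums, coverings
-/

set_option autoImplicit false

namespace Pool.Agent.H65.LS

open Pool.Agent.H83.LS MeasureTheory Set
open scoped ENNReal NNReal

/-- concave powers -/
theorem lintegral_rpow_le {α : Type*} [MeasurableSpace α] (μ : Measure α) (f : α → ℝ≥0∞) (hf : AEMeasurable f μ)
    {θ : ℝ} (h0 : 0 ≤ θ) (h1 : θ ≤ 1) :
    ∫⁻ x, f x ^ θ ∂μ ≤ (∫⁻ x, f x ∂μ) ^ θ * (μ univ) ^ (1 - θ) := by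
  have h := ENNReal.lintegral_mul_norm_pow_le (μ := μ) hf (aemeasurable_const (b := (1 : ℝ≥0∞)))
    h0 (by linarith : 0 ≤ 1 - θ) (by ring)
  simpa using h

/-- concave powers on boxes -/
theorem box_rpow_le (F : (ℝ × ℝ) × ℝ → ℝ≥0∞) (hF : Measurable F) {θ : ℝ} (h0 : 0 ≤ θ) (h1 : θ ≤ 1)
    {r : ℝ} (hr : 0 < r) (s₀ : ℝ) (y₀ : ℝ × ℝ) :
    ∫⁻ t in Icc (s₀ - r) (s₀ + r), ∫⁻ y in Metric.closedBall y₀ r, F (y, t) ^ θ ≤
      ENNReal.ofReal ((8 * r ^ 3) ^ (1 - θ)) *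
        (∫⁻ t in Icc (s₀ - r) (s₀ + r), ∫⁻ y in Metric.closedBall y₀ r, F (y, t)) ^ θ := by
  have hvol : volume (Metric.closedBall y₀ r) = ENNReal.ofReal (4 * r ^ 2) := by
    rw [← closedBall_prod_same, Measure.volume_eq_prod, Measure.prod_prod, Real.volume_closedBall,
      Real.volume_closedBall, ← ENNReal.ofReal_mul (by positivity)]
    congr 1
    ring
  have hvol2 : volume (Icc (s₀ - r) (s₀ + r)) = ENNReal.ofReal (2 * r) := by
    rw [Real.volume_Icc]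
    congr 1
    ring
  have hm : Measurable fun t : ℝ => ∫⁻ y in Metric.closedBall y₀ r, F (y, t) := hF.lintegral_prod_left'
  calc ∫⁻ t in Icc (s₀ - r) (s₀ + r), ∫⁻ y in Metric.closedBall y₀ r, F (y, t) ^ θ
      ≤ ∫⁻ t in Icc (s₀ - r) (s₀ + r), (∫⁻ y in Metric.closedBall y₀ r, F (y, t)) ^ θ *
          (ENNReal.ofReal (4 * r ^ 2)) ^ (1 - θ) := by
        refine lintegral_mono fun t => ?_
        have h := lintegral_rpow_le (volume.restrict (Metric.closedBall y₀ r)) (fun y => F (y, t))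
          (hF.comp (by fun_prop : Measurable fun y : ℝ × ℝ => (y, t))).aemeasurable h0 h1
        rwa [Measure.restrict_apply_univ, hvol] at h
    _ = (∫⁻ t in Icc (s₀ - r) (s₀ + r), (∫⁻ y in Metric.closedBall y₀ r, F (y, t)) ^ θ) *
          (ENNReal.ofReal (4 * r ^ 2)) ^ (1 - θ) := by
        rw [lintegral_mul_const _ (hm.pow_const θ)]
    _ ≤ ((∫⁻ t in Icc (s₀ - r) (s₀ + r), ∫⁻ y in Metric.closedBall y₀ r, F (y, t)) ^ θ *
          (ENNReal.ofReal (2 * r)) ^ (1 - θ)) * (ENNReal.ofReal (4 * r ^ 2)) ^ (1 - θ) := by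
        gcongr
        have h := lintegral_rpow_le (volume.restrict (Icc (s₀ - r) (s₀ + r)))
          (fun t => ∫⁻ y in Metric.closedBall y₀ r, F (y, t)) hm.aemeasurable h0 h1
        rwa [Measure.restrict_apply_univ, hvol2] at h
    _ = _ := by
        rw [mul_assoc, ← ENNReal.mul_rpow_of_nonneg _ _ (by linarith : 0 ≤ 1 - θ),
          ← ENNReal.ofReal_mul (by positivity), ENNReal.ofReal_rpow_of_pos (by positivity), mul_comm]
        congr 3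
        ring

/-- lattice sums on the line -/
theorem lattice_line : ∃ L : ℝ≥0, ∀ x : ℝ, ∑' m : ℤ, ENNReal.ofReal (((1 + |x - m|) ^ 2)⁻¹) ≤ L := by
  have hs : Summable fun n : ℤ => 4 * ((1 + |(n : ℝ)|) ^ 2)⁻¹ := by
    refine Summable.mul_left _ ?_
    have h1 : Summable fun n : ℤ => 1 / (n : ℝ) ^ 2 + (if n = 0 then (1 : ℝ) else 0) := by
      refine ((Real.summable_one_div_int_pow).2 (by norm_num)).add ?_
      exact summable_of_ne_finset_zero (s := {0}) (fun n hn => by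
        rw [Finset.mem_singleton] at hn
        rw [if_neg hn])
    refine Summable.of_nonneg_of_le (fun n => by positivity) (fun n => ?_) h1
    by_cases hn : n = 0
    · rw [if_pos hn, hn]
      simp
    · rw [if_neg hn, add_zero, one_div]
      have h2 : (0 : ℝ) < |(n : ℝ)| := by
        rw [abs_pos]
        exact_mod_cast hn
      rw [← sq_abs (n : ℝ)]
      refine inv_anti₀ (by positivity) ?_
      refine pow_le_pow_left₀ h2.le ?_ 2
      linarith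
  refine ⟨(∑' n : ℤ, ENNReal.ofReal (4 * ((1 + |(n : ℝ)|) ^ 2)⁻¹)).toNNReal, fun x => ?_⟩
  have hfin : ∑' n : ℤ, ENNReal.ofReal (4 * ((1 + |(n : ℝ)|) ^ 2)⁻¹) ≠ ⊤ := by
    rw [← ENNReal.ofReal_tsum_of_nonneg (fun n => by positivity) hs]
    exact ENNReal.ofReal_ne_top
  rw [ENNReal.coe_toNNReal hfin, ← (Equiv.addRight ⌊x⌋).tsum_eq (fun m : ℤ => ENNReal.ofReal (((1 + |x - m|) ^ 2)⁻¹))]
  refine ENNReal.tsum_le_tsum fun n => ENNReal.ofReal_le_ofReal ?_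
  have h1 : 1 + |(n : ℝ)| ≤ 2 * (1 + |x - ((n + ⌊x⌋ : ℤ) : ℝ)|) := by
    have h2 : (⌊x⌋ : ℝ) ≤ x := Int.floor_le x
    have h3 : x < ⌊x⌋ + 1 := Int.lt_floor_add_one x
    have h4 : (n : ℝ) = (x - ⌊x⌋) - (x - ((n + ⌊x⌋ : ℤ) : ℝ)) := by
      push_cast
      ring
    have h5 : |(n : ℝ)| ≤ |x - ⌊x⌋| + |x - ((n + ⌊x⌋ : ℤ) : ℝ)| := by
      nth_rewrite 1 [h4]
      exact abs_sub _ _
    have h6 : |x - (⌊x⌋ : ℝ)| ≤ 1 := by
      rw [abs_le]
      constructor <;> linarith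
    have h7 := abs_nonneg (x - ((n + ⌊x⌋ : ℤ) : ℝ))
    linarith
  show ((1 + |x - (((Equiv.addRight ⌊x⌋) n : ℤ) : ℝ)|) ^ 2)⁻¹ ≤ _
  rw [Equiv.coe_addRight]
  rw [inv_le_iff_one_le_mul₀ (by positivity)]
  have h8 : (1 + |(n : ℝ)|) ^ 2 ≤ (2 * (1 + |x - ((n + ⌊x⌋ : ℤ) : ℝ)|)) ^ 2 :=
    pow_le_pow_left₀ (by positivity) h1 2
  rw [mul_assoc, mul_left_comm, ← div_eq_inv_mul, le_div_iff₀ (by positivity)]
  linarith [h8]

/-- lattice sums in the plane -/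
theorem lattice_plane : ∃ L : ℝ≥0, ∀ (r : ℝ) (y : ℝ × ℝ), 0 < r →
    ∑' m : ℤ × ℤ, ENNReal.ofReal ((((1 + |y.1 - r * m.1| / r) * (1 + |y.2 - r * m.2| / r)) ^ 2)⁻¹) ≤ L := by
  obtain ⟨L, hL⟩ := lattice_line
  refine ⟨L * L, fun r y hr => ?_⟩
  have key : ∀ (x : ℝ) (m : ℤ), |x - r * m| / r = |x / r - m| := by
    intro x m
    rw [← abs_of_pos hr, ← abs_div, abs_of_pos hr]
    congr 1
    field_simp
  rw [ENNReal.tsum_prod']
  have h1 : ∀ m1 m2 : ℤ, ENNReal.ofReal ((((1 + |y.1 - r * m1| / r) * (1 + |y.2 - r * m2| / r)) ^ 2)⁻¹) =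
      ENNReal.ofReal (((1 + |y.1 / r - m1|) ^ 2)⁻¹) * ENNReal.ofReal (((1 + |y.2 / r - m2|) ^ 2)⁻¹) := by
    intro m1 m2
    rw [← ENNReal.ofReal_mul (by positivity), key, key, mul_pow, mul_inv]
  simp_rw [h1, ENNReal.tsum_mul_left, ENNReal.tsum_mul_right]
  push_cast
  exact mul_le_mul' (hL _) (hL _)

/-- at most three integers at distance at most one -/
theorem three_planks' (x : ℝ) (S : Finset ℕ) (h : ∀ i ∈ S, |x - (((i : ℤ) - (0 : ℕ) : ℤ) : ℝ)| ≤ 1) :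
    S.card ≤ 3 := by
  have h1 : S.image (fun i : ℕ => (i : ℤ)) ⊆ Finset.Icc ⌈x - 1⌉ ⌊x + 1⌋ := by
    intro j hj
    rw [Finset.mem_image] at hj
    obtain ⟨i, hi, rfl⟩ := hj
    have h2 := abs_le.1 (h i hi)
    push_cast at h2
    rw [Finset.mem_Icc]
    refine ⟨Int.ceil_le.2 ?_, Int.le_floor.2 ?_⟩ <;> push_cast <;> linarith
  have h2 : (S.image (fun i : ℕ => (i : ℤ))).card = S.card :=
    Finset.card_image_of_injective _ Nat.cast_injective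
  rw [← h2]
  refine le_trans (Finset.card_le_card h1) ?_
  rw [Int.card_Icc]
  have h3 : (⌊x + 1⌋ : ℝ) ≤ x + 1 := Int.floor_le _
  have h4 : x - 1 ≤ (⌈x - 1⌉ : ℝ) := Int.le_ceil _
  have h5 : ((⌊x + 1⌋ + 1 - ⌈x - 1⌉ : ℤ) : ℝ) ≤ 3 := by
    push_cast
    linarith
  have h6 : ⌊x + 1⌋ + 1 - ⌈x - 1⌉ ≤ 3 := by exact_mod_cast h5
  omega

end Pool.Agent.H65.LS
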