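import Pool.Agent.H65.LS.Tool2

/-!
Local smoothing, module SUPB: local energy versus the sup norm of the data
-/

set_option autoImplicit false

namespace Pool.Agent.H65.LS

open Pool.Agent.H83.LS MeasureTheory Set
open scoped ENNReal NNReal

/-- sup norm of a multiplier -/
theorem conv_sup (h_CONV : T_CONV) {χ b : ℝ × ℝ → ℂ} (hχ : TC χ) (hb : TC b) :
    supn (Fi (fun ζ => χ ζ * b ζ)) ≤ (∫⁻ y, ‖Fi χ y‖ₑ) * supn (Fi b) := by
  refine supn_le fun y => ?_
  rw [h_CONV χ b hχ hb y]
  have hc : Continuous (Fi χ) := by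
    have h1 := continuous_U_y 0 0 hχ.integrable
    rwa [U_zero] at h1
  calc ‖∫ y', Fi χ (y - y') * Fi b y'‖ₑ ≤ ∫⁻ y', ‖Fi χ (y - y') * Fi b y'‖ₑ := enorm_integral_le_lintegral_enorm _
    _ ≤ ∫⁻ y', ‖Fi χ (y - y')‖ₑ * supn (Fi b) := by
        refine lintegral_mono fun y' => ?_
        rw [enorm_mul]
        gcongr
        exact enorm_le_supn _ _
    _ = (∫⁻ y', ‖Fi χ (y - y')‖ₑ) * supn (Fi b) := by
        rw [lintegral_mul_const]
        exact (hc.comp (continuous_const.sub continuous_id)).measurable.enorm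
    _ = _ := by
        rw [lintegral_sub_left_eq_self (fun z => ‖Fi χ z‖ₑ) y]

/-- at most three planks at a point -/
theorem three_planks (x : ℝ) (J : ℕ) (S : Finset ℕ) (h : ∀ i ∈ S, |x - (((i : ℤ) - J : ℤ) : ℝ)| ≤ 1) :
    S.card ≤ 3 := by
  have h1 : S.image (fun i : ℕ => (i : ℤ) - J) ⊆ Finset.Icc ⌈x - 1⌉ ⌊x + 1⌋ := by
    intro j hj
    rw [Finset.mem_image] at hj
    obtain ⟨i, hi, rfl⟩ := hj
    have h2 := abs_le.1 (h i hi)
    rw [Finset.mem_Icc]
    refine ⟨Int.ceil_le.2 ?_, Int.le_floor.2 ?_⟩ <;> linarith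
  have h2 : (S.image (fun i : ℕ => (i : ℤ) - J)).card = S.card := by
    refine Finset.card_image_of_injective _ fun i i' h => ?_
    simpa using h
  rw [← h2]
  refine le_trans (Finset.card_le_card h1) ?_
  rw [Int.card_Icc]
  have h3 : (⌊x + 1⌋ : ℝ) ≤ x + 1 := Int.floor_le _
  have h4 : x - 1 ≤ (⌈x - 1⌉ : ℝ) := Int.le_ceil _
  have h5 : ((⌊x + 1⌋ + 1 - ⌈x - 1⌉ : ℤ) : ℝ) ≤ 3 := by
    push_cast
    linarith
  have h6 : ⌊x + 1⌋ + 1 - ⌈x - 1⌉ ≤ 3 := by exact_mod_cast h5
  omega

/-- slopes of close points -/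
theorem slope_close {z z' : ℝ × ℝ} {ρ : ℝ} (hz : z ∈ QQ) (hz' : z' ∈ QQ) (h1 : |z.1 - z'.1| ≤ ρ)
    (h2 : |z.2 - z'.2| ≤ ρ) : |z.2 / z.1 - z'.2 / z'.1| ≤ 8 * ρ := by
  have p1 : 1 / 4 ≤ z.1 := hz.1
  have p2 : 1 / 4 ≤ z'.1 := hz'.1
  have hρ : 0 ≤ ρ := le_trans (abs_nonneg _) h1
  have q1 : 0 < z.1 := by linarith
  have q2 : 0 < z'.1 := by linarith
  have e1 : z.2 / z.1 - z'.2 / z'.1 = ((z.2 - z'.2) + (z'.2 / z'.1) * (z'.1 - z.1)) / z.1 := by
    field_simp
    ring
  rw [e1, abs_div, abs_of_pos q1, div_le_iff₀ q1]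
  have e2 : |z'.2 / z'.1| ≤ 1 := by
    rw [abs_div, abs_of_pos q2, div_le_one q2]
    exact hz'.2.2
  have e3 : |(z'.2 / z'.1) * (z'.1 - z.1)| ≤ ρ := by
    rw [abs_mul, abs_sub_comm]
    calc |z'.2 / z'.1| * |z.1 - z'.1| ≤ 1 * ρ := mul_le_mul e2 h1 (abs_nonneg _) zero_le_one
      _ = ρ := one_mul _
  have e4 := abs_add_le (z.2 - z'.2) ((z'.2 / z'.1) * (z'.1 - z.1))
  have e5 : 8 * ρ * (1 / 4) ≤ 8 * ρ * z.1 := mul_le_mul_of_nonneg_left p1 (by positivity)
  linarith

/-- SUPB -/
theorem supb (h_LEC : T_LEC) (h_LE : T_LE) (h_ORTH : T_ORTH) (h_SEC1 : T_SEC1) (h_CONV : T_CONV)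
    (h_CUT : T_CUT) (h_TCU : T_TCU) (h_DET : T_DET) : T_SUPB := by
  obtain ⟨C0, hC0⟩ := en_sup
  obtain ⟨C1, hC1⟩ := h_LEC
  obtain ⟨C2, hC2⟩ := h_LE
  obtain ⟨C3, hC3⟩ := h_ORTH
  obtain ⟨⟨C4, hC4⟩, hS⟩ := h_SEC1
  obtain ⟨C5', hC5'⟩ := hS 2
  obtain ⟨hsc, hsum, -, -, -⟩ := h_CUT
  obtain ⟨-, hDET, -⟩ := h_DET
  set C5 : ℝ := |C5'| with hC5
  have hC50 : 0 ≤ C5 := abs_nonneg _
  set A : ℝ≥0 := (512 * C5).toNNReal with hA
  set CA : ℝ≥0 := C2 * (9 + A ^ 2) * (C0 * 10000) with hCA
  set CB : ℝ≥0 := C0 * (4 * C4 ^ 2) with hCB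
  set CC : ℝ≥0 := max CA CB with hCC
  refine ⟨C1 * C0 + C3 * 71 * (7 * CC), ?_⟩
  intro a ha s r y₀ b hr hb
  have hr0 : 0 < r := by linarith
  rcases le_or_gt |s| r with hsr | hsr
  · -- small times
    have h1 := hC1 a ha 0 s r y₀ b hr hsr hb
    rw [zero_add, U_zero] at h1
    calc En r y₀ (U a s b) ≤ C1 * En r y₀ (Fi b) := h1
      _ ≤ C1 * (C0 * ENNReal.ofReal (r ^ 2) * (supn (Fi b)) ^ 2) := by
          gcongr
          exact hC0 r y₀ (Fi b) hr0
      _ ≤ C1 * (C0 * ENNReal.ofReal (r * (r + |s|)) * (supn (Fi b)) ^ 2) := by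
          gcongr
          nlinarith [abs_nonneg s]
      _ = ((C1 * C0 : ℝ≥0) : ℝ≥0∞) * ENNReal.ofReal (r * (r + |s|)) * (supn (Fi b)) ^ 2 := by
          push_cast
          ring
      _ ≤ _ := by
          gcongr
          exact le_self_add
  · -- large times
    set q : ℝ := Real.sqrt |s| with hq
    have hs1 : 1 < |s| := by linarith
    have hs0 : 0 < |s| := by linarith
    have hqq : q * q = |s| := Real.mul_self_sqrt hs0.le
    have hq1 : 1 ≤ q := by
      rw [hq]
      exact Real.one_le_sqrt.2 hs1.le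
    have hq0 : 0 < q := by linarith
    set ν : ℝ := 1 / q with hν
    have hν0 : 0 < ν := by positivity
    have hν1 : ν ≤ 1 := by
      rw [hν, div_le_one hq0]
      exact hq1
    have hsν : |s| * ν ^ 2 ≤ 1 := by
      rw [hν, ← hqq]
      field_simp
      exact le_rfl
    set J : ℕ := ⌈q⌉₊ + 1 with hJ
    have hJ1 : q + 1 ≤ J := by
      rw [hJ]
      push_cast
      linarith [Nat.le_ceil q]
    have hJ2 : (J : ℝ) ≤ q + 2 := by
      rw [hJ]
      push_cast
      linarith [Nat.ceil_lt_add_one hq0.le]
    have hJν : (J : ℝ) * ν ≤ 3 := by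
      rw [hν, mul_one_div, div_le_iff₀ hq0]
      linarith
    set X : ℝ := max (r / q) (q / r) with hX
    have hX1 : 1 ≤ X := by
      rcases le_total r q with h | h
      · exact le_trans ((one_le_div hr0).2 h) (le_max_right _ _)
      · exact le_trans ((one_le_div hq0).2 h) (le_max_left _ _)
    set g : ℕ := ⌈X⌉₊ with hg
    have hgX : X ≤ g := Nat.le_ceil _
    have hg2 : (g : ℝ) ≤ 2 * X := by linarith [Nat.ceil_lt_add_one (show (0 : ℝ) ≤ X by linarith)]
    have hg0R : (0 : ℝ) < g := by linarith
    have hg0 : 0 < g := by exact_mod_cast hg0R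
    set n : ℕ := 2 * J / g + 1 with hn
    have hnR : (n : ℝ) ≤ 6 * q / g + 1 := by
      rw [hn]
      push_cast
      have h1 : ((2 * J / g : ℕ) : ℝ) ≤ ((2 * J : ℕ) : ℝ) / g := Nat.cast_div_le
      have h2 : ((2 * J : ℕ) : ℝ) / g ≤ 6 * q / g := by
        refine div_le_div_of_nonneg_right ?_ hg0R.le
        push_cast
        linarith
      linarith
    -- slopes of the planks
    set sl : ℕ → ℝ := fun i => (((i : ℤ) - J : ℤ) : ℝ) * ν with hsl
    have hsl4 : ∀ i, i < 2 * J + 1 → |sl i| ≤ 4 := by
      intro i hi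
      simp only [hsl]
      rw [abs_mul, abs_of_pos hν0]
      have h1 : |(((i : ℤ) - J : ℤ) : ℝ)| ≤ J := by
        rw [abs_le]
        have h2 : (i : ℝ) ≤ 2 * J := by exact_mod_cast Nat.lt_succ_iff.1 hi
        push_cast
        constructor
        · have : (0 : ℝ) ≤ i := Nat.cast_nonneg _
          linarith
        · linarith
      calc |(((i : ℤ) - J : ℤ) : ℝ)| * ν ≤ J * ν := mul_le_mul_of_nonneg_right h1 hν0.le
        _ ≤ 4 := by linarith
    set f : ℕ → ℝ × ℝ → ℂ := fun i => sc ν (sl i) with hf
    have hfT : ∀ i, TC (f i) := fun i => (hsc ν (sl i) hν0).1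
    have hf1 : ∀ i ζ, ‖f i ζ‖ ≤ 1 := fun i => (hsc ν (sl i) hν0).2.1
    have hfs : ∀ i ζ, f i ζ ≠ 0 → 1 / 8 ≤ ζ.1 ∧ |ζ.2 / ζ.1 - sl i| ≤ ν := by
      intro i ζ h0
      obtain ⟨h1, -, h3⟩ := (hsc ν (sl i) hν0).2.2 ζ h0
      have h4 : 0 < ζ.1 := by linarith
      refine ⟨h1, ?_⟩
      have h5 : ζ.2 / ζ.1 - sl i = (ζ.2 - sl i * ζ.1) / ζ.1 := by field_simp
      rw [h5, abs_div, abs_of_pos h4, div_le_iff₀ h4]
      exact h3
    -- the sum over all planks
    have hone : ∀ ζ ∈ QQ, ∑ i ∈ Finset.range (2 * J + 1), f i ζ = 1 := by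
      intro ζ hζ
      have h1 := hsum ν J hν0 (by
        rw [hν, one_div_one_div]
        push_cast
        exact hJ1) ζ hζ
      rw [← h1]
      refine Finset.sum_nbij' (fun i : ℕ => (i : ℤ) - J) (fun j : ℤ => (j + J).toNat) ?_ ?_ ?_ ?_ ?_
      · intro i hi
        rw [Finset.mem_range] at hi
        rw [Finset.mem_Icc]
        omega
      · intro j hj
        rw [Finset.mem_Icc] at hj
        rw [Finset.mem_range]
        omega
      · intro i hi
        simp
      · intro j hj
        rw [Finset.mem_Icc] at hj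
        show (((j + J).toNat : ℕ) : ℤ) - J = j
        omega
      · intro i hi
        rfl
    set Grp : ℕ → Finset ℕ := fun k => (Finset.range (2 * J + 1)).filter (fun i => i / g = k) with hGrp
    have hGmem : ∀ k i, i ∈ Grp k → i < 2 * J + 1 ∧ i / g = k := by
      intro k i hi
      rw [hGrp, Finset.mem_filter, Finset.mem_range] at hi
      exact hi
    have hGcard : ∀ k, (Grp k).card ≤ g := by
      intro k
      have h1 : Grp k ⊆ Finset.Ico (k * g) (k * g + g) := by
        intro i hi
        obtain ⟨-, h2⟩ := hGmem k i hi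
        rw [Finset.mem_Ico]
        have h3 := Nat.div_add_mod i g
        have h4 := Nat.mod_lt i hg0
        rw [h2, mul_comm] at h3
        omega
      refine le_trans (Finset.card_le_card h1) ?_
      rw [Nat.card_Ico]
      omega
    set χ : ℕ → ℝ × ℝ → ℂ := fun k ζ => ∑ i ∈ Grp k, f i ζ with hχ
    have hχT : ∀ k, TC (χ k) := fun k => TC.sum _ _ fun i _ => hfT i
    have hχs : ∀ k ζ, χ k ζ ≠ 0 → ∃ i ∈ Grp k, f i ζ ≠ 0 := by
      intro k ζ h0
      exact Finset.exists_ne_zero_of_sum_ne_zero h0
    have hχ3 : ∀ k ζ, ‖χ k ζ‖ ≤ 3 := by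
      intro k ζ
      refine le_trans (norm_sum_le _ _) ?_
      rw [← Finset.sum_filter_add_sum_filter_not (Grp k) (fun i => f i ζ ≠ 0)]
      have h1 : ∑ i ∈ (Grp k).filter (fun i => ¬ f i ζ ≠ 0), ‖f i ζ‖ = 0 := by
        refine Finset.sum_eq_zero fun i hi => ?_
        rw [Finset.mem_filter, not_not] at hi
        rw [hi.2, norm_zero]
      rw [h1, add_zero]
      have h2 : ((Grp k).filter (fun i => f i ζ ≠ 0)).card ≤ 3 := by
        refine three_planks (ζ.2 / ζ.1 / ν) J _ fun i hi => ?_
        rw [Finset.mem_filter] at hi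
        have h3 := (hfs i ζ hi.2).2
        have h4 : ζ.2 / ζ.1 / ν - (((i : ℤ) - J : ℤ) : ℝ) = (ζ.2 / ζ.1 - sl i) / ν := by
          simp only [hsl]
          field_simp
        rw [h4, abs_div, abs_of_pos hν0, div_le_one hν0]
        exact h3
      calc ∑ i ∈ (Grp k).filter (fun i => f i ζ ≠ 0), ‖f i ζ‖
          ≤ ∑ _i ∈ (Grp k).filter (fun i => f i ζ ≠ 0), (1 : ℝ) := Finset.sum_le_sum fun i _ => hf1 i ζ
        _ = ((Grp k).filter (fun i => f i ζ ≠ 0)).card := by simp
        _ ≤ 3 := by exact_mod_cast h2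
    have hχsum : ∀ ζ ∈ QQ, ∑ k ∈ Finset.range n, χ k ζ = 1 := by
      intro ζ hζ
      rw [← hone ζ hζ]
      simp only [hχ, hGrp]
      refine Finset.sum_fiberwise_of_maps_to (fun i hi => ?_) _
      rw [Finset.mem_range] at hi ⊢
      have : i / g ≤ 2 * J / g := Nat.div_le_div_right (Nat.lt_succ_iff.1 hi)
      omega
    -- multipliers
    set χt : ℕ → ℝ × ℝ → ℂ := fun k ζ => e (s * ph a ζ) * χ k ζ with hχt
    have hχtT : ∀ k, TC (χt k) := by
      intro k
      refine h_TCU a ha s (χ k) (hχT k) fun ζ h0 => ?_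
      obtain ⟨i, -, h1⟩ := hχs k ζ h0
      have := (hfs i ζ h1).1
      linarith
    set bk : ℕ → ℝ × ℝ → ℂ := fun k ζ => χt k ζ * b ζ with hbk
    have hbkT : ∀ k, TC (bk k) := fun k => TC.mul (hχtT k).1 hb.1
    have hUs : U a s b = Fi (fun ζ => ∑ k : Fin n, bk k ζ) := by
      funext y
      unfold U
      congr 1
      funext ζ
      simp only [hbk, hχt]
      rw [← Finset.sum_mul, ← Finset.mul_sum]
      by_cases h0 : b ζ = 0
      · rw [h0, mul_zero, mul_zero]
      · rw [Fin.sum_univ_eq_sum_range (fun k => χ k ζ) n, hχsum ζ (hb.2 ζ h0), mul_one]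
    -- orthogonality
    have hgν : 1 / r ≤ g * ν := by
      have h1 : q / r ≤ g := le_trans (le_max_right _ _) hgX
      calc 1 / r = q / r * ν := by
            rw [hν]
            field_simp
        _ ≤ g * ν := mul_le_mul_of_nonneg_right h1 hν0.le
    have horth : En r y₀ (U a s b) ≤ C3 * (71 : ℕ) * ∑ k : Fin n, En r y₀ (Fi (bk k)) := by
      rw [hUs]
      refine hC3 (Fin n) (fun k => bk k) r y₀ 71 hr0 (fun k => hbkT k) fun ζ => ?_
      set Sζ : Set (Fin n) := {k : Fin n | ∃ ζ' : ℝ × ℝ, bk k ζ' ≠ 0 ∧ |ζ'.1 - ζ.1| ≤ 2 / r ∧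
        |ζ'.2 - ζ.2| ≤ 2 / r} with hSζ
      rcases Set.eq_empty_or_nonempty Sζ with h0 | ⟨k0, hk0⟩
      · rw [h0, Set.ncard_empty]
        omega
      · have hclose : ∀ k ∈ Sζ, |((k : ℕ) : ℤ) - ((k0 : ℕ) : ℤ)| ≤ 35 := by
          intro k hk
          obtain ⟨z, hz0, hz1, hz2⟩ := hk
          obtain ⟨w, hw0, hw1, hw2⟩ := hk0
          have hzb : b z ≠ 0 := right_ne_zero_of_mul hz0
          have hwb : b w ≠ 0 := right_ne_zero_of_mul hw0
          obtain ⟨i, hi, hfi⟩ := hχs k z (right_ne_zero_of_mul (left_ne_zero_of_mul hz0))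
          obtain ⟨i', hi', hfi'⟩ := hχs k0 w (right_ne_zero_of_mul (left_ne_zero_of_mul hw0))
          have e1 := (hfs i z hfi).2
          have e2 := (hfs i' w hfi').2
          have e3 : |z.1 - w.1| ≤ 4 / r := by
            have : z.1 - w.1 = (z.1 - ζ.1) - (w.1 - ζ.1) := by ring
            rw [this]
            refine le_trans (abs_sub _ _) ?_
            have : 4 / r = 2 / r + 2 / r := by ring
            linarith
          have e4 : |z.2 - w.2| ≤ 4 / r := by
            have : z.2 - w.2 = (z.2 - ζ.2) - (w.2 - ζ.2) := by ring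
            rw [this]
            refine le_trans (abs_sub _ _) ?_
            have : 4 / r = 2 / r + 2 / r := by ring
            linarith
          have e5 := slope_close (hb.2 z hzb) (hb.2 w hwb) e3 e4
          have e6 : |sl i - sl i'| ≤ 2 * ν + 32 / r := by
            have : sl i - sl i' = (z.2 / z.1 - w.2 / w.1) - (z.2 / z.1 - sl i) + (w.2 / w.1 - sl i') := by ring
            rw [this]
            refine le_trans (abs_add_le _ _) ?_
            have e7 := abs_sub (z.2 / z.1 - w.2 / w.1) (z.2 / z.1 - sl i)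
            have e8 : 8 * (4 / r) = 32 / r := by ring
            linarith
          have e7 : sl i - sl i' = ((i : ℝ) - i') * ν := by
            simp only [hsl]
            push_cast
            ring
          rw [e7, abs_mul, abs_of_pos hν0] at e6
          obtain ⟨-, hik⟩ := hGmem _ i hi
          obtain ⟨-, hik'⟩ := hGmem _ i' hi'
          -- bounds on the group indices
          have hlow : ∀ (j k : ℕ), j / g = k → (k : ℝ) * g ≤ j ∧ (j : ℝ) < k * g + g := by
            intro j k hjk
            have h3 := Nat.div_add_mod j g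
            have h4 := Nat.mod_lt j hg0
            rw [hjk, mul_comm] at h3
            constructor
            · have : k * g ≤ j := by omega
              exact_mod_cast this
            · have : j < k * g + g := by omega
              exact_mod_cast this
          have b1 := hlow i k hik
          have b2 := hlow i' k0 hik'
          have e8 : |(k : ℝ) - (k0 : ℕ)| * g ≤ |(i : ℝ) - i'| + g := by
            have e9 : |((k : ℝ) - (k0 : ℕ)) * g| ≤ |(i : ℝ) - i'| + g := by
              rw [abs_le]
              have e10 := neg_abs_le ((i : ℝ) - i')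
              have e11 := le_abs_self ((i : ℝ) - i')
              constructor <;> nlinarith [b1.1, b1.2, b2.1, b2.2]
            rwa [abs_mul, abs_of_pos hg0R] at e9
          have e9 : |(k : ℝ) - (k0 : ℕ)| * (g * ν) ≤ 35 * (g * ν) := by
            have e10 : 32 / r ≤ 32 * (g * ν) := by
              have : 32 / r = 32 * (1 / r) := by ring
              rw [this]
              exact mul_le_mul_of_nonneg_left hgν (by norm_num)
            have e11 : 2 * ν ≤ 2 * (g * ν) := by
              have : (1 : ℝ) ≤ g := by linarith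
              nlinarith
            calc |(k : ℝ) - (k0 : ℕ)| * (g * ν) = (|(k : ℝ) - (k0 : ℕ)| * g) * ν := by ring
              _ ≤ (|(i : ℝ) - i'| + g) * ν := mul_le_mul_of_nonneg_right e8 hν0.le
              _ = |(i : ℝ) - i'| * ν + g * ν := by ring
              _ ≤ _ := by linarith
          have e10 : |(k : ℝ) - (k0 : ℕ)| ≤ 35 := le_of_mul_le_mul_right e9 (by positivity)
          have e11 : ((|((k : ℕ) : ℤ) - ((k0 : ℕ) : ℤ)| : ℤ) : ℝ) ≤ ((35 : ℤ) : ℝ) := by
            push_cast
            exact e10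
          exact_mod_cast e11
        have himg : (fun k : Fin n => ((k : ℕ) : ℤ)) '' Sζ ⊆
            ((Finset.Icc (((k0 : ℕ) : ℤ) - 35) (((k0 : ℕ) : ℤ) + 35) : Finset ℤ) : Set ℤ) := by
          rintro _ ⟨k, hk, rfl⟩
          have h1 := abs_le.1 (hclose k hk)
          rw [Finset.coe_Icc, Set.mem_Icc]
          constructor <;> linarith [h1.1, h1.2]
        have hinj : Function.Injective (fun k : Fin n => ((k : ℕ) : ℤ)) := by
          intro k k' h
          apply Fin.ext
          simpa using h
        rw [← Set.ncard_image_of_injective Sζ hinj]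
        refine le_trans (Set.ncard_le_ncard himg (Finset.finite_toSet _)) ?_
        rw [Set.ncard_coe_finset, Int.card_Icc]
        omega
    -- the energy of a group
    have hgrp : ∃ M : ℝ, 0 ≤ M ∧ (n : ℝ) * M ≤ 7 * (r * |s|) ∧
        ∀ k, k < n → En r y₀ (Fi (bk k)) ≤ CC * ENNReal.ofReal M * (supn (Fi b)) ^ 2 := by
      rcases le_or_gt q r with hqr | hqr
      · -- case A
        have hXr : X = r / q := by
          rw [hX]
          refine max_eq_left ?_
          calc q / r ≤ 1 := (div_le_one hr0).2 hqr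
            _ ≤ r / q := (one_le_div hq0).2 hqr
        refine ⟨r ^ 2, by positivity, ?_, fun k hk => ?_⟩
        · have h1 : 6 * q / g ≤ 6 * |s| / r := by
            rw [div_le_div_iff₀ hg0R hr0]
            have h2 : r / q ≤ g := by rw [← hXr]; exact hgX
            have h3 : r ≤ g * q := by rwa [div_le_iff₀ hq0] at h2
            rw [← hqq]
            nlinarith
          have h2 : (n : ℝ) ≤ 7 * |s| / r := by
            have h3 : (1 : ℝ) ≤ |s| / r := (one_le_div hr0).2 hsr.le
            have h4 : 7 * |s| / r = 6 * |s| / r + |s| / r := by ring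
            linarith
          calc (n : ℝ) * r ^ 2 ≤ 7 * |s| / r * r ^ 2 := mul_le_mul_of_nonneg_right h2 (by positivity)
            _ = 7 * (r * |s|) := by
              field_simp
        · set c : ℝ × ℝ := -(s • gr a (sl (g * k))) with hc
          have hgk : g * k < 2 * J + 1 := by
            have h1 : k ≤ 2 * J / g := by omega
            have h2 : g * k ≤ 2 * J := (Nat.mul_le_mul_left g h1).trans (Nat.mul_div_le _ _)
            omega
          have htail : tailI (100 * r) c (χt k) ≤ (A : ℝ≥0∞) := by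
            have h1 : χt k = fun ζ => ∑ i ∈ Grp k, e (s * ph a ζ) * f i ζ := by
              funext ζ
              simp only [hχt, hχ]
              rw [Finset.mul_sum]
            have hfiT : ∀ i, TC (fun ζ => e (s * ph a ζ) * f i ζ) := by
              intro i
              refine h_TCU a ha s (f i) (hfT i) fun ζ h0 => ?_
              have := (hfs i ζ h0).1
              linarith
            rw [h1]
            refine le_trans (tail_sum_le _ _ (fun i _ => hfiT i) _ _) ?_
            have h2 : ∀ i ∈ Grp k, tailI (100 * r) c (fun ζ => e (s * ph a ζ) * f i ζ) ≤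
                256 * ENNReal.ofReal (C5 / (ν * r) ^ 2) := by
              intro i hi
              obtain ⟨hi1, hi2⟩ := hGmem k i hi
              have h3 : ‖c - -(s • gr a (sl i))‖ ≤ 8 * r := by
                have h4 : c - -(s • gr a (sl i)) = s • (gr a (sl i) - gr a (sl (g * k))) := by
                  rw [hc, smul_sub]
                  abel
                rw [h4, norm_smul, Real.norm_eq_abs]
                have h5 := hDET a ha (sl i) (sl (g * k)) (hsl4 i hi1) (hsl4 _ hgk)
                have h6 : |sl i - sl (g * k)| ≤ g * ν := by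
                  have h7 : sl i - sl (g * k) = ((i : ℝ) - (g * k : ℕ)) * ν := by
                    simp only [hsl]
                    push_cast
                    ring
                  rw [h7, abs_mul, abs_of_pos hν0]
                  refine mul_le_mul_of_nonneg_right ?_ hν0.le
                  have h8 := Nat.div_add_mod i g
                  have h9 := Nat.mod_lt i hg0
                  rw [hi2] at h8
                  have h10 : (g * k : ℕ) ≤ i := by omega
                  have h11 : i ≤ g * k + g := by omega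
                  have h12 : (((g * k : ℕ) : ℝ)) ≤ i := by exact_mod_cast h10
                  have h13 : (i : ℝ) ≤ ((g * k : ℕ) : ℝ) + g := by exact_mod_cast h11
                  rw [abs_le]
                  constructor <;> linarith
                calc |s| * ‖gr a (sl i) - gr a (sl (g * k))‖ ≤ |s| * (4 * (g * ν)) := by
                      refine mul_le_mul_of_nonneg_left (le_trans h5 ?_) hs0.le
                      linarith
                  _ ≤ |s| * (4 * (2 * (r / q) * ν)) := by
                      refine mul_le_mul_of_nonneg_left ?_ hs0.le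
                      refine mul_le_mul_of_nonneg_left ?_ (by norm_num)
                      refine mul_le_mul_of_nonneg_right ?_ hν0.le
                      rw [← hXr]
                      exact hg2
                  _ = 8 * r := by
                      rw [hν, ← hqq]
                      field_simp
                      ring
              refine le_trans (tail_shift hr0 h3 _) ?_
              refine mul_le_mul_right ?_ _
              refine le_trans (hC5' a ha ν ⟨hν0, hν1⟩ (sl i) (abs_le.1 (hsl4 i hi1)) s r hsν ?_) ?_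
              · rw [hν, one_div_one_div]
                exact hqr
              · refine ENNReal.ofReal_le_ofReal ?_
                exact div_le_div_of_nonneg_right (le_abs_self _) (by positivity)
            refine le_trans (Finset.sum_le_sum h2) ?_
            rw [Finset.sum_const, nsmul_eq_mul]
            have h3 : (256 : ℝ≥0∞) = ENNReal.ofReal 256 := by norm_num
            have h4 : (((Grp k).card : ℕ) : ℝ≥0∞) = ENNReal.ofReal ((Grp k).card : ℝ) := by
              rw [ENNReal.ofReal_natCast]
            rw [h3, h4, ← ENNReal.ofReal_mul (by norm_num), ← ENNReal.ofReal_mul (by positivity), hA]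
            refine ENNReal.ofReal_le_ofReal ?_
            have h5 : ((Grp k).card : ℝ) ≤ 2 * (r / q) := by
              have : ((Grp k).card : ℝ) ≤ g := by exact_mod_cast hGcard k
              rw [← hXr]
              linarith
            have h6 : ν * r = r / q := by
              rw [hν]
              ring
            have h7 : 1 ≤ r / q := (one_le_div hq0).2 hqr
            rw [h6]
            calc ((Grp k).card : ℝ) * (256 * (C5 / (r / q) ^ 2))
                ≤ 2 * (r / q) * (256 * (C5 / (r / q) ^ 2)) :=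
                  mul_le_mul_of_nonneg_right h5 (by positivity)
              _ = 512 * C5 / (r / q) := by
                  field_simp
                  ring
              _ ≤ 512 * C5 := div_le_self (by positivity) h7
          have h1 := hC2 Unit (fun _ => χt k) (100 * r) c y₀ 9 ((A : ℝ≥0∞) ^ 2) b (by positivity)
            (fun _ => hχtT k) hb.1 (fun ζ => ?_) ?_
          · simp only [Finset.univ_unique, Finset.sum_singleton] at h1
            calc En r y₀ (Fi (bk k)) ≤ En (100 * r) y₀ (Fi (bk k)) := en_mono hr0 (by linarith) _ _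
              _ ≤ C2 * (9 + (A : ℝ≥0∞) ^ 2) * En (100 * r) (y₀ - c) (Fi b) := h1
              _ ≤ C2 * (9 + (A : ℝ≥0∞) ^ 2) * (C0 * ENNReal.ofReal ((100 * r) ^ 2) * (supn (Fi b)) ^ 2) := by
                  gcongr
                  exact hC0 _ _ _ (by positivity)
              _ = (CA : ℝ≥0∞) * ENNReal.ofReal (r ^ 2) * (supn (Fi b)) ^ 2 := by
                  have h2 : ENNReal.ofReal ((100 * r) ^ 2) = 10000 * ENNReal.ofReal (r ^ 2) := by
                    rw [mul_pow, ENNReal.ofReal_mul (by norm_num)]
                    norm_num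
                  rw [h2, hCA]
                  push_cast
                  ring
              _ ≤ _ := by
                  gcongr
                  exact le_max_left _ _
          · simp only [Finset.univ_unique, Finset.sum_singleton]
            have h3 : ‖χt k ζ‖ₑ ≤ 3 := by
              rw [← ofReal_norm]
              simp only [hχt]
              rw [norm_mul, norm_e, one_mul]
              calc ENNReal.ofReal ‖χ k ζ‖ ≤ ENNReal.ofReal 3 := ENNReal.ofReal_le_ofReal (hχ3 k ζ)
                _ = 3 := by norm_num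
            calc ‖χt k ζ‖ₑ ^ 2 ≤ 3 ^ 2 := by gcongr
              _ = 9 := by norm_num
          · simp only [Finset.univ_unique, Finset.sum_singleton]
            gcongr
      · -- case B
        have hXr : X = q / r := by
          rw [hX]
          refine max_eq_right ?_
          calc r / q ≤ 1 := (div_le_one hq0).2 hqr.le
            _ ≤ q / r := (one_le_div hr0).2 hqr.le
        refine ⟨q ^ 2, by positivity, ?_, fun k hk => ?_⟩
        · have h1 : 6 * q / g ≤ 6 * r := by
            rw [div_le_iff₀ hg0R]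
            have h2 : q / r ≤ g := by rw [← hXr]; exact hgX
            have h3 : q ≤ g * r := by rwa [div_le_iff₀ hr0] at h2
            linarith
          have h2 : (n : ℝ) ≤ 7 * r := by linarith
          calc (n : ℝ) * q ^ 2 ≤ 7 * r * q ^ 2 := mul_le_mul_of_nonneg_right h2 (by positivity)
            _ = 7 * (r * |s|) := by
              rw [← hqq]
              ring
        · have hker : ∫⁻ y, ‖Fi (χt k) y‖ₑ ≤ g * C4 := by
            have h1 : ∀ y, ‖Fi (χt k) y‖ₑ ≤ ∑ i ∈ Grp k, ‖U a s (f i) y‖ₑ := by
              intro y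
              have h2 : Fi (χt k) y = U a s (fun ζ => ∑ i ∈ Grp k, f i ζ) y := rfl
              rw [h2, U_sum a s _ f (fun i _ => (hfT i).integrable)]
              exact enorm_sum_le _ _
            refine le_trans (lintegral_mono h1) ?_
            rw [lintegral_finsetSum _ (fun i _ => (continuous_U_y a s (hfT i).integrable).measurable.enorm)]
            have h3 : ∀ i ∈ Grp k, ∫⁻ y, ‖U a s (f i) y‖ₑ ≤ (C4 : ℝ≥0∞) := by
              intro i hi
              obtain ⟨hi1, -⟩ := hGmem k i hi
              exact hC4 a ha ν ⟨hν0, hν1⟩ (sl i) (abs_le.1 (hsl4 i hi1)) s hsν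
            refine le_trans (Finset.sum_le_sum h3) ?_
            rw [Finset.sum_const, nsmul_eq_mul]
            gcongr
            exact_mod_cast hGcard k
          have hsup : supn (Fi (bk k)) ≤ g * C4 * supn (Fi b) := by
            refine le_trans (conv_sup h_CONV (hχtT k) hb.1) ?_
            gcongr
          calc En r y₀ (Fi (bk k)) ≤ C0 * ENNReal.ofReal (r ^ 2) * (supn (Fi (bk k))) ^ 2 := hC0 _ _ _ hr0
            _ ≤ C0 * ENNReal.ofReal (r ^ 2) * (g * C4 * supn (Fi b)) ^ 2 := by gcongr
            _ = C0 * (C4 : ℝ≥0∞) ^ 2 * (ENNReal.ofReal (r ^ 2) * (g : ℝ≥0∞) ^ 2) * (supn (Fi b)) ^ 2 := by ring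
            _ ≤ C0 * (C4 : ℝ≥0∞) ^ 2 * (4 * ENNReal.ofReal (q ^ 2)) * (supn (Fi b)) ^ 2 := by
                have h5 : ENNReal.ofReal (r ^ 2) * (g : ℝ≥0∞) ^ 2 ≤ 4 * ENNReal.ofReal (q ^ 2) := by
                  have h6 : (g : ℝ≥0∞) = ENNReal.ofReal (g : ℝ) := by rw [ENNReal.ofReal_natCast]
                  have h7 : (4 : ℝ≥0∞) = ENNReal.ofReal 4 := by norm_num
                  rw [h6, h7, ← ENNReal.ofReal_pow (by positivity), ← ENNReal.ofReal_mul (by positivity),
                    ← ENNReal.ofReal_mul (by norm_num)]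
                  refine ENNReal.ofReal_le_ofReal ?_
                  have h8 : r * g ≤ 2 * q := by
                    have h9 : (g : ℝ) ≤ 2 * (q / r) := by rw [← hXr]; exact hg2
                    calc r * g ≤ r * (2 * (q / r)) := mul_le_mul_of_nonneg_left h9 hr0.le
                      _ = 2 * q := by field_simp
                  calc r ^ 2 * (g : ℝ) ^ 2 = (r * g) ^ 2 := by ring
                    _ ≤ (2 * q) ^ 2 := pow_le_pow_left₀ (by positivity) h8 2
                    _ = 4 * q ^ 2 := by ring
                gcongr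
            _ = (CB : ℝ≥0∞) * ENNReal.ofReal (q ^ 2) * (supn (Fi b)) ^ 2 := by
                rw [hCB]
                push_cast
                ring
            _ ≤ _ := by
                gcongr
                exact le_max_right _ _
    obtain ⟨M, hM0, hnM, hM⟩ := hgrp
    calc En r y₀ (U a s b) ≤ C3 * (71 : ℕ) * ∑ k : Fin n, En r y₀ (Fi (bk k)) := horth
      _ ≤ C3 * (71 : ℕ) * ∑ _k : Fin n, CC * ENNReal.ofReal M * (supn (Fi b)) ^ 2 := by
          gcongr with k _
          exact hM k k.2
      _ = C3 * 71 * CC * ENNReal.ofReal (n * M) * (supn (Fi b)) ^ 2 := by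
          rw [Finset.sum_const, Finset.card_univ, Fintype.card_fin, nsmul_eq_mul,
            ENNReal.ofReal_mul (by positivity), ENNReal.ofReal_natCast]
          push_cast
          ring
      _ ≤ C3 * 71 * CC * ENNReal.ofReal (7 * (r * (r + |s|))) * (supn (Fi b)) ^ 2 := by
          have h8 : ENNReal.ofReal (n * M) ≤ ENNReal.ofReal (7 * (r * (r + |s|))) := by
            refine ENNReal.ofReal_le_ofReal (le_trans hnM ?_)
            nlinarith
          exact mul_le_mul_left (mul_le_mul_right h8 _) _
      _ = ((C3 * 71 * (7 * CC) : ℝ≥0) : ℝ≥0∞) * ENNReal.ofReal (r * (r + |s|)) * (supn (Fi b)) ^ 2 := by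
          rw [ENNReal.ofReal_mul (by norm_num)]
          have h7 : ENNReal.ofReal 7 = 7 := by norm_num
          rw [h7]
          push_cast
          ring
      _ ≤ _ := by
          gcongr
          exact le_add_self

end Pool.Agent.H65.LS
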