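import Pool.Agent.H65.LS.Tool

/-!
Local smoothing, module TLK: trilinear restriction for the children of a sector
-/

set_option autoImplicit false

namespace Pool.Agent.H65.LS

open Pool.Agent.H83.LS MeasureTheory Set
open scoped ENNReal NNReal

/-- the triple integral is subadditive -/
theorem tri_sum_le {ι : Type} (a r s₀ : ℝ) (y₀ : ℝ × ℝ) (t : Finset ι)
    (f : Fin 3 → ι → ℝ × ℝ → ℂ) (hf : ∀ i j, Integrable (f i j)) :
    tri a r s₀ y₀ (fun i ζ => ∑ j ∈ t, f i j ζ) ≤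
      ∑ q ∈ Fintype.piFinset (fun _ : Fin 3 => t), tri a r s₀ y₀ (fun i => f i (q i)) := by
  unfold tri
  have hm : ∀ q : Fin 3 → ι, Measurable fun p : (ℝ × ℝ) × ℝ => ∏ i, ‖U a p.2 (f i (q i)) p.1‖ₑ := fun q =>
    measurable_prod_U a (fun i => f i (q i)) (fun i => hf i (q i))
  have hm1 : ∀ (q : Fin 3 → ι) (s : ℝ), Measurable fun y : ℝ × ℝ => ∏ i, ‖U a s (f i (q i)) y‖ₑ := fun q s =>
    measurable_prod_U_y a s (fun i => f i (q i)) (fun i => hf i (q i))
  have hm2 : ∀ q : Fin 3 → ι, Measurable fun s : ℝ =>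
      ∫⁻ y in Metric.closedBall y₀ r, ∏ i, ‖U a s (f i (q i)) y‖ₑ := by
    intro q
    exact (hm q).lintegral_prod_left'
  rw [← lintegral_finsetSum _ (fun q _ => hm2 q)]
  refine lintegral_mono fun s => ?_
  rw [← lintegral_finsetSum _ (fun q _ => hm1 q s)]
  refine lintegral_mono fun y => ?_
  calc ∏ i, ‖U a s (fun ζ => ∑ j ∈ t, f i j ζ) y‖ₑ
      ≤ ∏ i, ∑ j ∈ t, ‖U a s (f i j) y‖ₑ := by
        refine Finset.prod_le_prod' fun i _ => ?_
        rw [U_sum a s t (f i) (fun j _ => hf i j)]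
        exact enorm_sum_le _ _
    _ = ∑ q ∈ Fintype.piFinset (fun _ : Fin 3 => t), ∏ i, ‖U a s (f i (q i)) y‖ₑ := by
        rw [Finset.prod_univ_sum]

theorem tri_zero (a r s₀ : ℝ) (y₀ : ℝ × ℝ) (b : Fin 3 → ℝ × ℝ → ℂ) (i : Fin 3) (h : ∀ ζ, b i ζ = 0) :
    tri a r s₀ y₀ b = 0 := by
  have h0 : b i = fun _ => 0 := funext h
  unfold tri
  have h1 : ∀ (s : ℝ) (y : ℝ × ℝ), ∏ i, ‖U a s (b i) y‖ₑ = 0 := by
    intro s y
    refine Finset.prod_eq_zero (Finset.mem_univ i) ?_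
    rw [h0, U_zero_fun]
    simp
  simp_rw [h1]
  simp

/-- TLK -/
theorem tlk (h_TL : T_TL) (h_LE : T_LE) (h_DEC : T_DEC) (h_CUT : T_CUT) (h_TCU : T_TCU) : T_TLK := by
  intro K η hK hη
  have hK' : (1 : ℝ) ≤ K := by exact_mod_cast hK
  have hK0 : (0 : ℝ) < K := by linarith
  obtain ⟨δ, hδ, hδ1, C1, hC1⟩ := h_TL (1 / (4 * K)) η (by positivity) hη
  obtain ⟨CL, hCL⟩ := h_LE
  obtain ⟨hsc, hsum, -, -, -⟩ := h_CUT
  set μ : ℝ := min δ (1 / (8 * K)) with hμ
  have hμ0 : 0 < μ := lt_min hδ (by positivity)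
  have hμδ : μ ≤ δ := min_le_left _ _
  have hμK : μ ≤ 1 / (8 * K) := min_le_right _ _
  set J : ℤ := ⌈1 / μ + 1⌉ with hJ
  have hJ1 : 1 / μ + 1 ≤ J := Int.le_ceil _
  set t : Finset ℤ := Finset.Icc (-J) J with ht
  -- tails
  choose A hA using fun j : ℤ => tail_finite h_DEC (hsc μ (j * μ) hμ0).1
  set AA : ℝ≥0 := ∑ j ∈ t, A j with hAA
  have hAj : ∀ j ∈ t, A j ≤ AA := fun j hj => Finset.single_le_sum (fun _ _ => bot_le) hj
  set C2 : ℝ≥0 := CL * (1 + AA ^ 2) with hC2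
  refine ⟨(t.card : ℝ≥0) ^ 3 * (C1 * C2 ^ (3 / 2 : ℝ)), ?_⟩
  intro a ha s r s₀ y₀ b hsep hr hb
  have hbT : ∀ i, TC (b i) := fun i => (hb i).1
  set f : Fin 3 → ℤ → ℝ × ℝ → ℂ := fun i j ζ => sc μ (j * μ) ζ * b i ζ with hf
  have hfT : ∀ i j, TC (f i j) := fun i j => TC.mul (hsc μ (j * μ) hμ0).1.1 (hbT i)
  have hbf : b = fun i ζ => ∑ j ∈ t, f i j ζ := by
    funext i ζ
    simp only [hf]
    rw [← Finset.sum_mul]
    by_cases h0 : b i ζ = 0
    · rw [h0, mul_zero]
    · rw [hsum μ J hμ0 hJ1 ζ ((hb i).2 ζ h0).1, one_mul]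
  -- the energy of a piece
  have hEn : ∀ i, ∀ j ∈ t, En r y₀ (U a s₀ (f i j)) ≤ C2 * En r y₀ (U a s₀ (b i)) := by
    intro i j hj
    have hbe : TC (fun ζ => e (s₀ * ph a ζ) * b i ζ) := by
      refine h_TCU a ha s₀ (b i) (hbT i) fun ζ h0 => ?_
      have := ((hb i).2 ζ h0).1.1
      linarith
    have h1 := hCL Unit (fun _ => sc μ (j * μ)) r 0 y₀ 1 ((AA : ℝ≥0∞) ^ 2) (fun ζ => e (s₀ * ph a ζ) * b i ζ)
      (by linarith) (fun _ => (hsc μ (j * μ) hμ0).1) hbe (fun ζ => ?_) ?_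
    · simp only [Finset.univ_unique, Finset.sum_singleton, sub_zero] at h1
      have h2 : Fi (fun ζ => sc μ (j * μ) ζ * (e (s₀ * ph a ζ) * b i ζ)) = U a s₀ (f i j) := by
        funext y
        unfold U
        congr 1
        funext ζ
        simp only [hf]
        ring
      rw [h2] at h1
      refine le_trans h1 (le_of_eq ?_)
      rw [hC2]
      push_cast
      rfl
    · simp only [Finset.univ_unique, Finset.sum_singleton]
      have h3 := (hsc μ (j * μ) hμ0).2.1 ζ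
      rw [← ofReal_norm]
      calc ENNReal.ofReal ‖sc μ (j * μ) ζ‖ ^ 2 ≤ 1 ^ 2 := by
            gcongr
            rw [← ENNReal.ofReal_one]
            exact ENNReal.ofReal_le_ofReal h3
        _ = 1 := one_pow _
    · simp only [Finset.univ_unique, Finset.sum_singleton]
      have h3 := hA j r hr
      have h4 : (A j : ℝ≥0∞) ≤ AA := by exact_mod_cast hAj j hj
      gcongr
      exact le_trans h3 h4
  -- each term
  have hterm : ∀ q ∈ Fintype.piFinset (fun _ : Fin 3 => t),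
      tri a r s₀ y₀ (fun i => f i (q i)) ≤
        C1 * ENNReal.ofReal (r ^ η) * (C2 ^ (3 / 2 : ℝ) * ∏ i, (En r y₀ (U a s₀ (b i))) ^ (1 / 2 : ℝ)) := by
    intro q hq
    rw [Fintype.mem_piFinset] at hq
    by_cases hz : ∃ i, ∀ ζ, f i (q i) ζ = 0
    · obtain ⟨i, hi⟩ := hz
      rw [tri_zero a r s₀ y₀ _ i hi]
      exact bot_le
    · push Not at hz
      choose ζ hζ using hz
      -- slopes
      set σ : Fin 3 → ℝ := fun i => max (-1) (min 1 (q i * μ)) with hσ
      have hσ1 : ∀ i, |σ i| ≤ 1 := by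
        intro i
        rw [abs_le]
        exact ⟨le_max_left _ _, max_le (by norm_num) (min_le_left _ _)⟩
      have hclamp : ∀ i, ∀ x : ℝ, |x| ≤ 1 → |x - q i * μ| ≤ μ → |x - σ i| ≤ μ := by
        intro i x hx hxq
        rw [abs_le] at hx hxq ⊢
        simp only [hσ]
        rcases le_total (q i * μ) 1 with h1 | h1
        · rw [min_eq_right h1]
          rcases le_total (-1) (q i * μ) with h2 | h2
          · rw [max_eq_right h2]
            exact hxq
          · rw [max_eq_left h2]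
            constructor <;> linarith
        · rw [min_eq_left h1, max_eq_right (by norm_num)]
          constructor <;> linarith
      have hpt : ∀ i, ∀ ζ, f i (q i) ζ ≠ 0 → ζ ∈ QQ ∧ |ζ.2 - σ i * ζ.1| ≤ μ * ζ.1 ∧
          |ζ.2 - s i * ζ.1| ≤ ζ.1 / (2 * K) ∧ 0 < ζ.1 := by
        intro i ζ h0
        have h1 := (hb i).2 ζ (right_ne_zero_of_mul h0)
        have h2 := (hsc μ (q i * μ) hμ0).2.2 ζ (left_ne_zero_of_mul h0)
        have h3 : 0 < ζ.1 := by linarith [h2.1]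
        refine ⟨h1.1, ?_, h1.2, h3⟩
        have h4 : |ζ.2 / ζ.1| ≤ 1 := by
          rw [abs_div, abs_of_pos h3, div_le_one h3]
          exact h1.1.2.2
        have h5 : |ζ.2 / ζ.1 - q i * μ| ≤ μ := by
          have h6 : ζ.2 / ζ.1 - q i * μ = (ζ.2 - q i * μ * ζ.1) / ζ.1 := by
            field_simp
          rw [h6, abs_div, abs_of_pos h3, div_le_iff₀ h3]
          exact h2.2.2
        have h7 := hclamp i _ h4 h5
        have h8 : ζ.2 - σ i * ζ.1 = (ζ.2 / ζ.1 - σ i) * ζ.1 := by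
          field_simp
        rw [h8, abs_mul, abs_of_pos h3]
        exact mul_le_mul_of_nonneg_right h7 h3.le
      have hσs : ∀ i, |σ i - s i| ≤ μ + 1 / (2 * K) := by
        intro i
        obtain ⟨-, h1, h2, h3⟩ := hpt i _ (hζ i)
        have h4 : (σ i - s i) * (ζ i).1 = ((ζ i).2 - s i * (ζ i).1) - ((ζ i).2 - σ i * (ζ i).1) := by ring
        have h5 : |σ i - s i| * (ζ i).1 ≤ (μ + 1 / (2 * K)) * (ζ i).1 := by
          rw [← abs_of_pos h3, ← abs_mul, abs_of_pos h3, h4]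
          refine le_trans (abs_sub _ _) ?_
          have h6 : (ζ i).1 / (2 * K) = 1 / (2 * K) * (ζ i).1 := by ring
          linarith
        exact le_of_mul_le_mul_right h5 h3
      have hsep' : ∀ i j, i ≠ j → 1 / (4 * (K : ℝ)) ≤ |σ i - σ j| := by
        intro i j hij
        have h1 := hsep i j hij
        have h2 := hσs i
        have h3 := hσs j
        have h4 : |s i - s j| ≤ |σ i - s i| + |σ i - σ j| + |σ j - s j| := by
          have h5 : s i - s j = -(σ i - s i) + (σ i - σ j) + (σ j - s j) := by ring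
          rw [h5]
          refine le_trans (abs_add_le _ _) ?_
          have h6 := abs_add_le (-(σ i - s i)) (σ i - σ j)
          rw [abs_neg] at h6
          linarith
        have h7 : 3 / (2 * (K : ℝ)) - 2 * (1 / (2 * K)) - 2 * (1 / (8 * K)) = 1 / (4 * K) := by
          field_simp
          norm_num
        linarith
      have h1 := hC1 a ha σ r s₀ y₀ (fun i => f i (q i)) hσ1 hsep' hr (fun i => ⟨hfT i (q i), fun ζ h0 => ?_⟩)
      · refine le_trans h1 ?_
        refine mul_le_mul_right ?_ _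
        calc ∏ i, (En r y₀ (U a s₀ (f i (q i)))) ^ (1 / 2 : ℝ)
            ≤ ∏ i : Fin 3, ((C2 : ℝ≥0∞) * En r y₀ (U a s₀ (b i))) ^ (1 / 2 : ℝ) := by
              refine Finset.prod_le_prod' fun i _ => ?_
              exact ENNReal.rpow_le_rpow (hEn i (q i) (hq i)) (by norm_num)
          _ = ∏ i : Fin 3, ((C2 : ℝ≥0∞) ^ (1 / 2 : ℝ) * (En r y₀ (U a s₀ (b i))) ^ (1 / 2 : ℝ)) := by
              refine Finset.prod_congr rfl fun i _ => ?_
              exact ENNReal.mul_rpow_of_nonneg _ _ (by norm_num)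
          _ = _ := by
              rw [Finset.prod_mul_distrib, Finset.prod_const, Finset.card_univ, Fintype.card_fin,
                ← ENNReal.rpow_natCast, ← ENNReal.rpow_mul]
              norm_num
      · obtain ⟨h2, h3, -, h5⟩ := hpt i ζ h0
        exact ⟨h2, le_trans h3 (mul_le_mul_of_nonneg_right hμδ h5.le)⟩
  rw [hbf]
  refine le_trans (tri_sum_le a r s₀ y₀ t f (fun i j => (hfT i j).integrable)) ?_
  refine le_trans (Finset.sum_le_sum hterm) ?_
  rw [Finset.sum_const, Fintype.card_piFinset_const, nsmul_eq_mul, ← hbf]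
  refine le_of_eq ?_
  have h9 : ((C2 ^ (3 / 2 : ℝ) : ℝ≥0) : ℝ≥0∞) = (C2 : ℝ≥0∞) ^ (3 / 2 : ℝ) := by
    rw [ENNReal.coe_rpow_of_nonneg _ (by norm_num)]
  push_cast
  rw [h9]
  ring

end Pool.Agent.H65.LS
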