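import Pool.Agent.H83.LS.Basic
import Pool.Agent.H83.LS.Targets1

/-!
Local smoothing: common lemmas (continuity and measurability of the evolution)
-/

set_option autoImplicit false

namespace Pool.Agent.H65.LS

open Pool.Agent.H83.LS MeasureTheory Set
open scoped ENNReal NNReal

theorem measurable_ph (a : ℝ) : Measurable (ph a) := by
  unfold ph
  fun_prop

/-- the evolution is jointly continuous -/
theorem continuous_U (a : ℝ) {b : ℝ × ℝ → ℂ} (hb : Integrable b) :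
    Continuous fun p : (ℝ × ℝ) × ℝ => U a p.2 b p.1 := by
  unfold U Fi
  refine continuous_of_dominated (bound := fun ζ => ‖b ζ‖) ?_ ?_ hb.norm ?_
  · intro p
    have h1 : Measurable fun ζ : ℝ × ℝ => e (p.1.1 * ζ.1 + p.1.2 * ζ.2) := by
      exact measurable_e.comp (by fun_prop)
    have h2 : Measurable fun ζ : ℝ × ℝ => e (p.2 * ph a ζ) :=
      measurable_e.comp ((measurable_ph a).const_mul _)
    exact h1.aestronglyMeasurable.mul (h2.aestronglyMeasurable.mul hb.aestronglyMeasurable)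
  · intro p
    refine Filter.Eventually.of_forall fun ζ => ?_
    rw [norm_mul, norm_mul, norm_e, norm_e, one_mul, one_mul]
  · refine Filter.Eventually.of_forall fun ζ => ?_
    have h1 : Continuous fun p : (ℝ × ℝ) × ℝ => e (p.1.1 * ζ.1 + p.1.2 * ζ.2) :=
      continuous_e.comp (by fun_prop)
    have h2 : Continuous fun p : (ℝ × ℝ) × ℝ => e (p.2 * ph a ζ) :=
      continuous_e.comp (by fun_prop)
    exact h1.mul (h2.mul continuous_const)

theorem measurable_U (a : ℝ) {b : ℝ × ℝ → ℂ} (hb : Integrable b) :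
    Measurable fun p : (ℝ × ℝ) × ℝ => ‖U a p.2 b p.1‖ₑ :=
  (continuous_U a hb).measurable.enorm

theorem continuous_U_y (a t : ℝ) {b : ℝ × ℝ → ℂ} (hb : Integrable b) :
    Continuous fun y : ℝ × ℝ => U a t b y :=
  (continuous_U a hb).comp (by fun_prop : Continuous fun y : ℝ × ℝ => (y, t))

theorem measurable_prod_U (a : ℝ) (f : Fin 3 → ℝ × ℝ → ℂ) (hf : ∀ i, Integrable (f i)) :
    Measurable fun p : (ℝ × ℝ) × ℝ => ∏ i, ‖U a p.2 (f i) p.1‖ₑ := by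
  have : ∀ i, Measurable fun p : (ℝ × ℝ) × ℝ => ‖U a p.2 (f i) p.1‖ₑ := fun i => measurable_U a (hf i)
  fun_prop

theorem measurable_prod_U_y (a s : ℝ) (f : Fin 3 → ℝ × ℝ → ℂ) (hf : ∀ i, Integrable (f i)) :
    Measurable fun y : ℝ × ℝ => ∏ i, ‖U a s (f i) y‖ₑ := by
  have : ∀ i, Measurable fun y : (ℝ × ℝ) => ‖U a s (f i) y‖ₑ := fun i =>
    (continuous_U_y a s (hf i)).measurable.enorm
  fun_prop

theorem U_sum {ι : Type*} (a t : ℝ) (s : Finset ι) (f : ι → ℝ × ℝ → ℂ) (hf : ∀ i ∈ s, Integrable (f i))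
    (y : ℝ × ℝ) : U a t (fun ζ => ∑ i ∈ s, f i ζ) y = ∑ i ∈ s, U a t (f i) y := by
  unfold U
  have h1 : (fun ζ : ℝ × ℝ => e (t * ph a ζ) * ∑ i ∈ s, f i ζ) =
      fun ζ => ∑ i ∈ s, e (t * ph a ζ) * f i ζ := by
    funext ζ
    rw [Finset.mul_sum]
  rw [h1]
  refine Fi_sum s _ (fun i hi => ?_) y
  apply (hf i hi).bdd_mul (c := 1)
  · exact (measurable_e.comp ((measurable_ph a).const_mul _)).aestronglyMeasurable
  · exact Filter.Eventually.of_forall (fun ζ => (norm_e _).le)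

theorem U_zero_fun (a t : ℝ) (y : ℝ × ℝ) : U a t (fun _ => 0) y = 0 := by
  unfold U Fi
  simp

/-- decay gives finite tails -/
theorem tail_finite (h_DEC : T_DEC) {χ : ℝ × ℝ → ℂ} (hχ : TC χ) :
    ∃ A : ℝ≥0, ∀ r : ℝ, 1 ≤ r → tailI r 0 χ ≤ A := by
  obtain ⟨-, h⟩ := h_DEC χ hχ
  obtain ⟨C, hC⟩ := h 6
  have hint : ∫⁻ z : ℝ × ℝ, ENNReal.ofReal (C * (((1 + |z.1|) ^ 2)⁻¹ * ((1 + |z.2|) ^ 2)⁻¹)) ≠ ⊤ := by
    have h1 : Integrable fun x : ℝ => ((1 + |x|) ^ 2)⁻¹ := by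
      have h2 : Integrable (fun x : ℝ => (1 + ‖x‖) ^ (-(2 : ℝ))) :=
        integrable_one_add_norm (E := ℝ) (μ := volume) (r := 2) (by simp)
      refine h2.congr (Filter.Eventually.of_forall fun x => ?_)
      simp only [Real.norm_eq_abs]
      rw [Real.rpow_neg (by positivity), Real.rpow_two]
    have h3 : Integrable fun z : ℝ × ℝ => C * (((1 + |z.1|) ^ 2)⁻¹ * ((1 + |z.2|) ^ 2)⁻¹) :=
      (h1.mul_prod h1).const_mul C
    exact (Integrable.lintegral_lt_top h3).ne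
  refine ⟨(∫⁻ z : ℝ × ℝ, ENNReal.ofReal (C * (((1 + |z.1|) ^ 2)⁻¹ * ((1 + |z.2|) ^ 2)⁻¹))).toNNReal,
    fun r hr => ?_⟩
  rw [ENNReal.coe_toNNReal hint]
  unfold tailI
  refine le_trans (setLIntegral_le_lintegral _ _) (lintegral_mono fun z => ?_)
  have hr0 : 0 < r := by linarith
  rw [← ofReal_norm, ← ENNReal.ofReal_mul (norm_nonneg _)]
  refine ENNReal.ofReal_le_ofReal ?_
  have h1 : 1 + |(z.1 - (0 : ℝ × ℝ).1)| / r ≤ 1 + |z.1| := by
    simp only [Prod.fst_zero, sub_zero]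
    gcongr
    exact div_le_self (abs_nonneg _) hr
  have h2 : 1 + |(z.2 - (0 : ℝ × ℝ).2)| / r ≤ 1 + |z.2| := by
    simp only [Prod.snd_zero, sub_zero]
    gcongr
    exact div_le_self (abs_nonneg _) hr
  have h3 : ((1 + |(z.1 - (0 : ℝ × ℝ).1)| / r) * (1 + |(z.2 - (0 : ℝ × ℝ).2)| / r)) ^ 4 ≤
      ((1 + |z.1|) * (1 + |z.2|)) ^ 4 := by
    apply pow_le_pow_left₀ (by positivity)
    exact mul_le_mul h1 h2 (by positivity) (by positivity)
  have h4 := hC z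
  have hp : 0 < (1 + |z.1|) * (1 + |z.2|) := by positivity
  calc ‖Fi χ z‖ * ((1 + |(z.1 - (0 : ℝ × ℝ).1)| / r) * (1 + |(z.2 - (0 : ℝ × ℝ).2)| / r)) ^ 4
      ≤ ‖Fi χ z‖ * ((1 + |z.1|) * (1 + |z.2|)) ^ 4 := mul_le_mul_of_nonneg_left h3 (norm_nonneg _)
    _ = (‖Fi χ z‖ * ((1 + |z.1|) * (1 + |z.2|)) ^ 6) * (((1 + |z.1|) ^ 2)⁻¹ * ((1 + |z.2|) ^ 2)⁻¹) := by
        field_simp
    _ ≤ C * (((1 + |z.1|) ^ 2)⁻¹ * ((1 + |z.2|) ^ 2)⁻¹) := mul_le_mul_of_nonneg_right h4 (by positivity)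

end Pool.Agent.H65.LS
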