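import Pool.Agent.H65.LS.Tool

/-!
Local smoothing: the integral of the weight, energy and sup norm
-/

set_option autoImplicit false

namespace Pool.Agent.H65.LS

open Pool.Agent.H83.LS MeasureTheory Set
open scoped ENNReal NNReal

/-- the integral of the weight -/
theorem int_om : ∃ C0 : ℝ≥0, ∀ (r : ℝ) (y₀ : ℝ × ℝ), 0 < r →
    ∫⁻ y, ENNReal.ofReal (om r (y - y₀)) ≤ C0 * ENNReal.ofReal (r ^ 2) := by
  have h1 : Integrable fun x : ℝ => ((1 + |x|) ^ 2)⁻¹ := by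
    have h2 : Integrable (fun x : ℝ => (1 + ‖x‖) ^ (-(2 : ℝ))) :=
      integrable_one_add_norm (E := ℝ) (μ := volume) (r := 2) (by simp)
    refine h2.congr (Filter.Eventually.of_forall fun x => ?_)
    simp only [Real.norm_eq_abs]
    rw [Real.rpow_neg (by positivity), Real.rpow_two]
  set c : ℝ := ∫ x : ℝ, ((1 + |x|) ^ 2)⁻¹ with hc
  have hc0 : 0 ≤ c := integral_nonneg fun x => by positivity
  refine ⟨(c ^ 2).toNNReal, fun r y₀ hr => ?_⟩
  have h3 : ∀ x : ℝ, ((1 + |x| / r) ^ 2)⁻¹ = (fun x : ℝ => ((1 + |x|) ^ 2)⁻¹) (x / r) := by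
    intro x
    simp only
    rw [abs_div, abs_of_pos hr]
  have h4 : Integrable fun x : ℝ => ((1 + |x| / r) ^ 2)⁻¹ := by
    simp_rw [h3]
    exact h1.comp_div hr.ne'
  have h5 : ∫ x : ℝ, ((1 + |x| / r) ^ 2)⁻¹ = r * c := by
    have h6 := Measure.integral_comp_div (fun x : ℝ => ((1 + |x|) ^ 2)⁻¹) r
    rw [abs_of_pos hr, smul_eq_mul] at h6
    rw [hc, ← h6]
    exact integral_congr_ae (Filter.Eventually.of_forall h3)
  rw [lintegral_sub_right_eq_self (fun y : ℝ × ℝ => ENNReal.ofReal (om r y)) y₀]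
  calc ∫⁻ y : ℝ × ℝ, ENNReal.ofReal (om r y)
      ≤ ∫⁻ y : ℝ × ℝ, ENNReal.ofReal (((1 + |y.1| / r) ^ 2)⁻¹ * ((1 + |y.2| / r) ^ 2)⁻¹) := by
        refine lintegral_mono fun y => ENNReal.ofReal_le_ofReal ?_
        unfold om
        rw [← mul_inv, ← mul_pow]
        refine inv_anti₀ (by positivity) ?_
        refine pow_le_pow_right₀ ?_ (by norm_num)
        have h6 : (1 : ℝ) ≤ 1 + |y.1| / r := le_add_of_nonneg_right (by positivity)
        have h7 : (1 : ℝ) ≤ 1 + |y.2| / r := le_add_of_nonneg_right (by positivity)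
        nlinarith
    _ = ENNReal.ofReal (∫ y : ℝ × ℝ, ((1 + |y.1| / r) ^ 2)⁻¹ * ((1 + |y.2| / r) ^ 2)⁻¹) := by
        have h8 : Integrable (fun y : ℝ × ℝ => ((1 + |y.1| / r) ^ 2)⁻¹ * ((1 + |y.2| / r) ^ 2)⁻¹) :=
          h4.mul_prod h4
        exact (ofReal_integral_eq_lintegral_ofReal h8
          (Filter.Eventually.of_forall fun y => by positivity)).symm
    _ = ENNReal.ofReal ((r * c) * (r * c)) := by
        congr 1
        rw [← h5]
        exact integral_prod_mul (fun x : ℝ => ((1 + |x| / r) ^ 2)⁻¹) (fun x : ℝ => ((1 + |x| / r) ^ 2)⁻¹)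
    _ = ((c ^ 2).toNNReal : ℝ≥0∞) * ENNReal.ofReal (r ^ 2) := by
        rw [← ENNReal.ofReal, ← ENNReal.ofReal_mul (by positivity)]
        congr 1
        ring

theorem enorm_le_supn (g : ℝ × ℝ → ℂ) (y : ℝ × ℝ) : ‖g y‖ₑ ≤ supn g := le_iSup (fun y => ‖g y‖ₑ) y

theorem supn_le {g : ℝ × ℝ → ℂ} {A : ℝ≥0∞} (h : ∀ y, ‖g y‖ₑ ≤ A) : supn g ≤ A := iSup_le h

/-- energy and sup norm -/
theorem en_sup : ∃ C0 : ℝ≥0, ∀ (r : ℝ) (y₀ : ℝ × ℝ) (g : ℝ × ℝ → ℂ), 0 < r →
    En r y₀ g ≤ C0 * ENNReal.ofReal (r ^ 2) * (supn g) ^ 2 := by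
  obtain ⟨C0, h⟩ := int_om
  refine ⟨C0, fun r y₀ g hr => ?_⟩
  unfold En
  calc ∫⁻ y, ENNReal.ofReal (om r (y - y₀)) * ‖g y‖ₑ ^ 2
      ≤ ∫⁻ y, ENNReal.ofReal (om r (y - y₀)) * (supn g) ^ 2 := by
        refine lintegral_mono fun y => ?_
        gcongr
        exact enorm_le_supn g y
    _ = (∫⁻ y, ENNReal.ofReal (om r (y - y₀))) * (supn g) ^ 2 := by
        rw [lintegral_mul_const]
        exact ((measurable_om r).comp (measurable_id.sub_const y₀)).ennreal_ofReal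
    _ ≤ _ := by gcongr; exact h r y₀ hr

/-- the energy increases with the radius -/
theorem en_mono {r r' : ℝ} (hr : 0 < r) (h : r ≤ r') (y₀ : ℝ × ℝ) (g : ℝ × ℝ → ℂ) :
    En r y₀ g ≤ En r' y₀ g := by
  unfold En
  refine lintegral_mono fun y => ?_
  gcongr
  exact om_mono hr h _

/-- tails at different centres -/
theorem tail_shift {r : ℝ} (hr : 0 < r) {c c' : ℝ × ℝ} (h : ‖c - c'‖ ≤ 8 * r) (χ : ℝ × ℝ → ℂ) :
    tailI (100 * r) c χ ≤ 256 * tailI r c' χ := by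
  unfold tailI
  rw [← lintegral_const_mul' _ _ (by norm_num)]
  have hsub : {z : ℝ × ℝ | 100 * r ≤ ‖z - c‖} ⊆ {z : ℝ × ℝ | r ≤ ‖z - c'‖} := by
    intro z hz
    have h1 : ‖z - c‖ ≤ ‖z - c'‖ + ‖c' - c‖ := by
      have h2 : z - c = (z - c') + (c' - c) := by abel
      rw [h2]
      exact norm_add_le _ _
    rw [norm_sub_rev c' c] at h1
    simp only [mem_ofPred_eq] at hz ⊢
    linarith
  refine le_trans (lintegral_mono_set hsub) ?_
  refine lintegral_mono fun z => ?_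
  have h1 : |c.1 - c'.1| ≤ 8 * r := le_trans (norm_fst_le (c - c')) h
  have h2 : |c.2 - c'.2| ≤ 8 * r := le_trans (norm_snd_le (c - c')) h
  have key : ∀ x u v : ℝ, |u - v| ≤ 8 * r → 1 + |x - u| / (100 * r) ≤ 2 * (1 + |x - v| / r) := by
    intro x u v huv
    have h3 : |x - u| ≤ |x - v| + 8 * r := by
      have h4 : x - u = (x - v) - (u - v) := by ring
      rw [h4]
      exact le_trans (abs_sub _ _) (by linarith)
    have h5 : |x - u| / (100 * r) ≤ (|x - v| + 8 * r) / (100 * r) :=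
      div_le_div_of_nonneg_right h3 (by positivity)
    have h6 : (|x - v| + 8 * r) / (100 * r) = (1 / 100) * (|x - v| / r) + 8 / 100 := by
      field_simp
    have h7 : 0 ≤ |x - v| / r := by positivity
    linarith
  calc ‖Fi χ z‖ₑ * ENNReal.ofReal (((1 + |z.1 - c.1| / (100 * r)) * (1 + |z.2 - c.2| / (100 * r))) ^ 4)
      ≤ ‖Fi χ z‖ₑ * ENNReal.ofReal (256 * ((1 + |z.1 - c'.1| / r) * (1 + |z.2 - c'.2| / r)) ^ 4) := by
        gcongr
        calc ((1 + |z.1 - c.1| / (100 * r)) * (1 + |z.2 - c.2| / (100 * r))) ^ 4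
            ≤ ((2 * (1 + |z.1 - c'.1| / r)) * (2 * (1 + |z.2 - c'.2| / r))) ^ 4 := by
              apply pow_le_pow_left₀ (by positivity)
              exact mul_le_mul (key _ _ _ h1) (key _ _ _ h2) (by positivity) (by positivity)
          _ = _ := by ring
    _ = _ := by
        rw [ENNReal.ofReal_mul (by norm_num)]
        have h8 : ENNReal.ofReal 256 = 256 := by norm_num
        rw [h8]
        ring

/-- tails are subadditive -/
theorem tail_sum_le {ι : Type*} (t : Finset ι) (f : ι → ℝ × ℝ → ℂ) (hf : ∀ i ∈ t, TC (f i)) (r : ℝ) (c : ℝ × ℝ) :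
    tailI r c (fun ζ => ∑ i ∈ t, f i ζ) ≤ ∑ i ∈ t, tailI r c (f i) := by
  unfold tailI
  have hcont : ∀ i ∈ t, Continuous (Fi (f i)) := by
    intro i hi
    have h1 := continuous_U_y 0 0 (hf i hi).integrable
    rwa [U_zero] at h1
  rw [← lintegral_finsetSum']
  · refine lintegral_mono fun z => ?_
    rw [Fi_sum t f (fun i hi => (hf i hi).integrable) z, ← Finset.sum_mul]
    gcongr
    exact enorm_sum_le _ _
  · intro i hi
    have h2 : Measurable fun z : ℝ × ℝ => ‖Fi (f i) z‖ₑ := (hcont i hi).measurable.enorm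
    have h3 : Measurable fun z : ℝ × ℝ =>
        ENNReal.ofReal (((1 + |z.1 - c.1| / r) * (1 + |z.2 - c.2| / r)) ^ 4) := by
      fun_prop
    exact (h2.mul h3).aemeasurable

end Pool.Agent.H65.LS
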